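import Mathlib

/-! Definitions for MP_e9de1a_an, in space dimension one. -/

open MeasureTheory ProbabilityTheory Filter Topology Set

namespace VV176

/-- Assumption (A1) in dimension one. -/
def A1 (H : ℝ → ℝ → ℝ) : Prop :=
  ∀ R : ℝ, ∃ P : ℝ, ∀ x p : ℝ, P ≤ |p| → R ≤ H x p ^ 2 / 2 + deriv (fun y => H y p) x * p

/-- `u` is the classical solution of `u_t + H(x, u_x) = ε u_xx` on `𝕋 × (0,∞)`, `u(·,0) = g`. -/
structure ViscousSolution (H : ℝ → ℝ → ℝ) (g : ℝ → ℝ) (ε : ℝ) (u : ℝ → ℝ → ℝ) : Prop where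
  per : ∀ x t, u (x + 1) t = u x t
  cont : ContinuousOn (fun q : ℝ × ℝ => u q.1 q.2) {q | 0 ≤ q.2}
  init : ∀ x, u x 0 = g x
  smooth_x : ∀ t, 0 < t → ContDiff ℝ 2 (fun x => u x t)
  smooth_t : ∀ x t, 0 < t → DifferentiableAt ℝ (fun s => u x s) t
  pde : ∀ x t, 0 < t → deriv (fun s => u x s) t + H x (deriv (fun y => u y t) x)
    = ε * deriv (deriv (fun y => u y t)) x

/-- `σ` is the solution of `-σ_t - (H_p(x,u_x) σ)_x = ε σ_xx` on `𝕋 × (0,T)`, `σ(·,T) = δ_z`: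
`σ t` is a probability measure on the line, read modulo 1, that is, tested with 1-periodic
functions. -/
structure AdjointSolution (H : ℝ → ℝ → ℝ) (u : ℝ → ℝ → ℝ) (ε z T : ℝ) (σ : ℝ → Measure ℝ) :
    Prop where
  prob : ∀ t, 0 ≤ t → t ≤ T → IsProbabilityMeasure (σ t)
  final : ∀ h : ℝ → ℝ, Continuous h → (∀ x, h (x + 1) = h x) →
    Tendsto (fun t => ∫ x, h x ∂(σ t)) (𝓝[<] T) (𝓝 (h z))
  eq : ∀ h : ℝ → ℝ, ContDiff ℝ 2 h → (∀ x, h (x + 1) = h x) → ∀ t, 0 < t → t < T →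
    HasDerivAt (fun s => ∫ x, h x ∂(σ s))
      (∫ x, (deriv (H x) (deriv (fun y => u y t) x) * deriv h x - ε * deriv (deriv h) x) ∂(σ t)) t

/-- the value `∫ ψ dμ` of the measure `μ^{ε,z}` on a test function `ψ(x,p,t)` -/
noncomputable def muInt (u : ℝ → ℝ → ℝ) (σ : ℝ → Measure ℝ) (T : ℝ) (ψ : ℝ → ℝ → ℝ → ℝ) : ℝ :=
  ∫ t in (0:ℝ)..T, ∫ x, ψ x (deriv (fun y => u y t) x) t ∂(σ t)

end VV176
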