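import Mathlib

/-! Blueprint for MP_e9de1a_an (vanishing-viscosity limit of adjoint measures does not exist in general).
Small independent statements.  `stein1` (Gaussian integration by parts) is in
Pool/Agent/H102R3/SKM.lean (namespace there). -/

open MeasureTheory ProbabilityTheory Filter Topology Set

namespace VV176

noncomputable section

/-- slowly oscillating modulation, values in [1,3] -/
def M (l : ℝ) : ℝ := 2 + Real.sin (Real.log (1 + l ^ 2))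

def kk (S : ℝ) : ℝ := S ^ 4 * M (Real.log (S ^ 2))

/-- the initial datum, 1-periodic -/
def g (y : ℝ) : ℝ :=
  -(Real.pi ^ 2 / 8) - Real.cos (2 * Real.pi * y) ^ 2 / 2 + Real.pi / 2 * Real.cos (2 * Real.pi * y)
  + Real.pi / 12 * Real.cos (2 * Real.pi * y) ^ 3
  + 160 * kk (Real.sin (Real.pi * (y - 1/4))) * Real.sin (Real.pi * (y + 1/4)) ^ 4

/-- the action -/
def VV (y : ℝ) : ℝ := 2 * Real.pi ^ 2 * y ^ 2 + g y

def PP (a : ℝ) : ℝ := 2 * a - 2 * Real.sin a - Real.sin a ^ 3 / 3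

/-- f is C^2 with derivatives f1, f2, all bounded by C -/
structure B2 (f f1 f2 : ℝ → ℝ) (C : ℝ) : Prop where
  d1 : ∀ x, HasDerivAt f (f1 x) x
  d2 : ∀ x, HasDerivAt f1 (f2 x) x
  c2 : Continuous f2
  b0 : ∀ x, |f x| ≤ C
  b1 : ∀ x, |f1 x| ≤ C
  b2 : ∀ x, |f2 x| ≤ C

/-- heat semigroup with variance s -/
def Gs (f : ℝ → ℝ) (s x : ℝ) : ℝ := ∫ y, f (x + Real.sqrt s * y) ∂(gaussianReal 0 1)

def J (c : ℝ) : ℝ := ∫ x : ℝ, Real.exp (-(c * x ^ 4) / 2)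

/-! ### calculus -/

def TaskKK : Prop := ContDiff ℝ 2 kk

def TaskPer : Prop := (∀ y, g (y + 1) = g y) ∧ (∀ y, VV y = 2 * Real.pi ^ 2 * y ^ 2
  - Real.pi ^ 2 / 8 - Real.cos (2 * Real.pi * y) ^ 2 / 2 + Real.pi / 2 * Real.cos (2 * Real.pi * y)
  + Real.pi / 12 * Real.cos (2 * Real.pi * y) ^ 3
  + 10 * Real.cos (2 * Real.pi * y) ^ 4 * M (Real.log (Real.sin (Real.pi * (y - 1/4)) ^ 2)))

/-- the two wells: s = y - 1/4 resp. s = -1/4 - y; p = 2 pi s -/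
def TaskWellId : Prop :=
  (∀ s, VV (1/4 + s) = ((2 * Real.pi * s) ^ 2 - Real.sin (2 * Real.pi * s) ^ 2) / 2
    + Real.pi / 4 * PP (2 * Real.pi * s)
    + 10 * Real.sin (2 * Real.pi * s) ^ 4 * M (Real.log (Real.sin (Real.pi * s) ^ 2))) ∧
  (∀ s, VV (-(1/4) - s) = ((2 * Real.pi * s) ^ 2 - Real.sin (2 * Real.pi * s) ^ 2) / 2
    + Real.pi / 4 * PP (2 * Real.pi * s)
    + 10 * Real.sin (2 * Real.pi * s) ^ 4 * M (Real.log (Real.cos (Real.pi * s) ^ 2)))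

def TaskPP : Prop := ∀ a, 0 ≤ a → 0 ≤ PP a ∧ PP a ≤ 3 / 20 * a ^ 5

def TaskSS : Prop := Tendsto (fun a : ℝ => (a ^ 2 - Real.sin a ^ 2) / a ^ 4) (𝓝[≠] 0) (𝓝 (1/3))

/-- lower bound (p = 2 pi s ≥ -pi/2), m any value in [1,3] -/
def TaskLow : Prop := (∀ a, 0 ≤ a → 0 ≤ PP a ∧ PP a ≤ 3 / 20 * a ^ 5) →
  ∀ p m : ℝ, -(Real.pi / 2) ≤ p → 1 ≤ m →
    p ^ 4 / (20 * (1 + p ^ 2)) ≤ (p ^ 2 - Real.sin p ^ 2) / 2 + Real.pi / 4 * PP p + 10 * Real.sin p ^ 4 * m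

def TaskSeq : Prop := ∀ a : ℝ, ∃ r : ℕ → ℝ, (∀ k, 0 < r k) ∧ Tendsto r atTop (𝓝 0) ∧
  ∀ x, x ≠ 0 → Tendsto (fun k => M (Real.log (Real.sin (Real.pi * (r k * x)) ^ 2))) atTop
    (𝓝 (2 + Real.sin a))

/-- pointwise limits in the wells -/
def TaskWellLim : Prop :=
  (∀ a, 0 ≤ a → 0 ≤ PP a ∧ PP a ≤ 3 / 20 * a ^ 5) →
  Tendsto (fun a : ℝ => (a ^ 2 - Real.sin a ^ 2) / a ^ 4) (𝓝[≠] 0) (𝓝 (1/3)) →
  ∀ (r : ℕ → ℝ) (N : ℕ → ℝ) (m x : ℝ), (∀ k, 0 < r k) → Tendsto r atTop (𝓝 0) → x ≠ 0 →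
    Tendsto N atTop (𝓝 m) →
    Tendsto (fun k => (((2 * Real.pi * (r k * x)) ^ 2 - Real.sin (2 * Real.pi * (r k * x)) ^ 2) / 2
    + Real.pi / 4 * PP (2 * Real.pi * (r k * x))
    + 10 * Real.sin (2 * Real.pi * (r k * x)) ^ 4 * N k) / (r k) ^ 4) atTop
      (𝓝 (((2 * Real.pi) ^ 4 * (1/6 + 10 * m)) * x ^ 4))

/-! ### Laplace asymptotics -/

def TaskLap : Prop := ∀ (F : ℝ → ℝ) (c κ a b : ℝ) (r : ℕ → ℝ), Continuous F → 0 < c → 0 < κ →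
  (∀ k, 0 < r k) → Tendsto r atTop (𝓝 0) →
  (∀ x, x ≠ 0 → Tendsto (fun k => F (r k * x) / (r k) ^ 4) atTop (𝓝 (c * x ^ 4))) →
  (∀ s, -(1/4) ≤ s → κ * s ^ 4 / (1 + s ^ 2) ≤ F s) →
  Tendsto (fun k => (r k)⁻¹ * ∫ s in Ioi (-(1/4:ℝ)), (a + b * s) * Real.exp (-(F s) / (2 * (r k) ^ 4))) atTop
    (𝓝 (a * J c))

def TaskJ : Prop := ∀ c c', 0 < c → c < c' → 0 < J c' ∧ J c' < J c

/-- splitting of a Lebesgue integral at 0 and shifting -/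
def TaskSplit : Prop := ∀ h : ℝ → ℝ, Integrable h →
  ∫ y, h y = (∫ s in Ioi (-(1/4:ℝ)), h (1/4 + s)) + ∫ s in Ioi (-(1/4:ℝ)), h (-(1/4) - s)

/-! ### heat semigroup -/

def TaskB2 : Prop := ∀ f : ℝ → ℝ, ContDiff ℝ 2 f → (∀ x, f (x + 1) = f x) →
  ∃ C, B2 f (deriv f) (deriv (deriv f)) C

def TaskHX : Prop := ∀ (f f1 : ℝ → ℝ) (C s x : ℝ), (∀ x, HasDerivAt f (f1 x) x) → Continuous f1 →
  (∀ x, |f x| ≤ C) → (∀ x, |f1 x| ≤ C) → HasDerivAt (fun x => Gs f s x) (Gs f1 s x) x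

def TaskHT : Prop := ∀ (f f1 f2 : ℝ → ℝ) (C s x : ℝ), B2 f f1 f2 C → 0 < s →
  HasDerivAt (fun s => Gs f s x) (Gs f2 s x / 2) s

def TaskHC : Prop := ∀ (f : ℝ → ℝ) (C : ℝ), Continuous f → (∀ x, |f x| ≤ C) →
  Continuous (fun p : ℝ × ℝ => Gs f p.1 p.2)

def TaskSG : Prop := ∀ (f : ℝ → ℝ) (C s t z : ℝ), Continuous f → (∀ x, |f x| ≤ C) → 0 ≤ s → 0 ≤ t →
  ∫ y, Gs f t (z + Real.sqrt s * y) ∂(gaussianReal 0 1) = Gs f (s + t) z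

def TaskDyn : Prop := ∀ (f f1 f2 h h1 h2 : ℝ → ℝ) (C e t T z : ℝ), B2 f f1 f2 C → B2 h h1 h2 C →
  0 < e → 0 < t → t < T →
  HasDerivAt (fun t => ∫ y, Gs f (2 * e * t) (z + Real.sqrt (2 * e * (T - t)) * y)
      * h (z + Real.sqrt (2 * e * (T - t)) * y) ∂(gaussianReal 0 1))
    (∫ y, (-(2 * e) * Gs f1 (2 * e * t) (z + Real.sqrt (2 * e * (T - t)) * y)
        * h1 (z + Real.sqrt (2 * e * (T - t)) * y)
      - e * (Gs f (2 * e * t) (z + Real.sqrt (2 * e * (T - t)) * y)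
        * h2 (z + Real.sqrt (2 * e * (T - t)) * y))) ∂(gaussianReal 0 1)) t

def TaskTerm : Prop := ∀ (f h : ℝ → ℝ) (C e T z : ℝ), Continuous f → Continuous h →
  (∀ x, |f x| ≤ C) → (∀ x, |h x| ≤ C) →
  (Continuous (fun p : ℝ × ℝ => Gs f p.1 p.2)) →
  Tendsto (fun t => ∫ y, Gs f (2 * e * t) (z + Real.sqrt (2 * e * (T - t)) * y)
      * h (z + Real.sqrt (2 * e * (T - t)) * y) ∂(gaussianReal 0 1)) (𝓝[<] T)
    (𝓝 (Gs f (2 * e * T) z * h z))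

/-- Gibbs representation: substitution and one integration by parts -/
def TaskGibbs : Prop := ∀ (f f1 : ℝ → ℝ) (C v : ℝ), (∀ x, HasDerivAt f (f1 x) x) → Continuous f1 →
  (∀ x, |f x| ≤ C) → (∀ x, |f1 x| ≤ C) → 0 < v →
  Gs f v 0 = (Real.sqrt (2 * Real.pi * v))⁻¹ * ∫ y, f y * Real.exp (-(y ^ 2) / (2 * v)) ∧
  Gs f1 v 0 = v⁻¹ * ((Real.sqrt (2 * Real.pi * v))⁻¹ * ∫ y, y * (f y * Real.exp (-(y ^ 2) / (2 * v))))

end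

end VV176
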