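import Mathlib
import Pool.Agent.Q176.VV.Stmts
import Pool.Agent.Q176.VV.Def

open MeasureTheory ProbabilityTheory Filter Topology Set

namespace VV176

theorem Gs_zero (f : ℝ → ℝ) (x : ℝ) : Gs f 0 x = f x := by
  simp [Gs]

theorem Gs_per (f : ℝ → ℝ) (hp : ∀ x, f (x + 1) = f x) (s x : ℝ) : Gs f s (x + 1) = Gs f s x := by
  unfold Gs
  congr 1
  ext y
  rw [← hp (x + Real.sqrt s * y)]
  congr 1
  ring

theorem Gs_ge (f : ℝ → ℝ) (c C : ℝ) (hf : Continuous f) (hC : ∀ x, |f x| ≤ C) (hc : ∀ x, c ≤ f x)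
    (s x : ℝ) : c ≤ Gs f s x := by
  have h : ∫ _y : ℝ, c ∂(gaussianReal 0 1) ≤ ∫ y, f (x + Real.sqrt s * y) ∂(gaussianReal 0 1) := by
    apply integral_mono (integrable_const c)
    · exact Integrable.of_bound (by fun_prop) C (Eventually.of_forall fun y => hC _)
    · intro y; exact hc _
  simpa [Gs] using h

theorem Gs_abs_le (f h : ℝ → ℝ) (K C : ℝ) (hf : Continuous f) (hC : ∀ x, |f x| ≤ C)
    (hh : Continuous h) (hk : ∀ x, |h x| ≤ K * f x)
    (s x : ℝ) : |Gs h s x| ≤ K * Gs f s x := by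
  unfold Gs
  rw [← integral_const_mul]
  refine (abs_integral_le_integral_abs).trans ?_
  have hi : Integrable (fun y => f (x + Real.sqrt s * y)) (gaussianReal 0 1) :=
    Integrable.of_bound (by fun_prop) C (Eventually.of_forall fun y => hC _)
  apply integral_mono_of_nonneg (Eventually.of_forall fun y => abs_nonneg _) (hi.const_mul K)
  exact Eventually.of_forall fun y => hk _

/-- the heat extension is C² in x -/
theorem Gs_contDiff (hHX : TaskHX) (hHC : TaskHC) (f f1 f2 : ℝ → ℝ) (C : ℝ) (hB : B2 f f1 f2 C)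
    (s : ℝ) : ContDiff ℝ 2 (fun x => Gs f s x) ∧ deriv (fun x => Gs f s x) = (fun x => Gs f1 s x) ∧
      deriv (fun x => Gs f1 s x) = (fun x => Gs f2 s x) := by
  have c1 : Continuous f1 := continuous_iff_continuousAt.2 fun x => (hB.d2 x).continuousAt
  have e1 : ∀ x, HasDerivAt (fun x => Gs f s x) (Gs f1 s x) x :=
    fun x => hHX f f1 C s x hB.d1 c1 hB.b0 hB.b1
  have e2 : ∀ x, HasDerivAt (fun x => Gs f1 s x) (Gs f2 s x) x :=
    fun x => hHX f1 f2 C s x hB.d2 hB.c2 hB.b1 hB.b2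
  have d1 : deriv (fun x => Gs f s x) = (fun x => Gs f1 s x) := funext fun x => (e1 x).deriv
  have d2 : deriv (fun x => Gs f1 s x) = (fun x => Gs f2 s x) := funext fun x => (e2 x).deriv
  refine ⟨?_, d1, d2⟩
  have c2 : Continuous (fun x => Gs f2 s x) :=
    (hHC f2 C hB.c2 hB.b2).comp (Continuous.prodMk continuous_const continuous_id)
  rw [show (2 : WithTop ℕ∞) = 1 + 1 from rfl, contDiff_succ_iff_deriv]
  refine ⟨fun x => (e1 x).differentiableAt, by simp, ?_⟩
  rw [d1, contDiff_one_iff_deriv]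
  refine ⟨fun x => (e2 x).differentiableAt, ?_⟩
  rw [d2]
  exact c2

/-- Cole–Hopf: the viscous solution -/
theorem coleHopf (hHX : TaskHX) (hHT : TaskHT) (hHC : TaskHC) (g0 f1 f2 : ℝ → ℝ) (C c ε : ℝ)
    (hε : 0 < ε) (hg : ∀ x, g0 (x + 1) = g0 x)
    (hB : B2 (fun y => Real.exp (-(g0 y) / (2 * ε))) f1 f2 C)
    (hc : 0 < c) (hcl : ∀ x, c ≤ Real.exp (-(g0 x) / (2 * ε))) :
    ViscousSolution (fun _ p => p ^ 2 / 2) g0 ε
      (fun x t => -(2 * ε) * Real.log (Gs (fun y => Real.exp (-(g0 y) / (2 * ε))) (2 * ε * t) x)) ∧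
    (∀ t x, deriv (fun y => -(2 * ε) *
        Real.log (Gs (fun y => Real.exp (-(g0 y) / (2 * ε))) (2 * ε * t) y)) x
      = -(2 * ε) * (Gs f1 (2 * ε * t) x / Gs (fun y => Real.exp (-(g0 y) / (2 * ε))) (2 * ε * t) x)) := by
  set f : ℝ → ℝ := fun y => Real.exp (-(g0 y) / (2 * ε)) with hf
  have cf : Continuous f := continuous_iff_continuousAt.2 fun x => (hB.d1 x).continuousAt
  have hfp : ∀ x, f (x + 1) = f x := fun x => by simp only [hf, hg]
  have hpos : ∀ s x, 0 < Gs f s x := fun s x => hc.trans_le (Gs_ge f c C cf hB.b0 hcl s x)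
  have hx1 : ∀ s x, HasDerivAt (fun x => Gs f s x) (Gs f1 s x) x := fun s x =>
    hHX f f1 C s x hB.d1 (continuous_iff_continuousAt.2 fun x => (hB.d2 x).continuousAt) hB.b0 hB.b1
  have hx2 : ∀ s x, HasDerivAt (fun x => Gs f1 s x) (Gs f2 s x) x := fun s x =>
    hHX f1 f2 C s x hB.d2 hB.c2 hB.b1 hB.b2
  have hu1 : ∀ t x, HasDerivAt (fun y => -(2 * ε) * Real.log (Gs f (2 * ε * t) y))
      (-(2 * ε) * (Gs f1 (2 * ε * t) x / Gs f (2 * ε * t) x)) x := fun t x =>
    ((hx1 _ x).log (hpos _ x).ne').const_mul _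
  have hu1' : ∀ t, deriv (fun y => -(2 * ε) * Real.log (Gs f (2 * ε * t) y))
      = fun x => -(2 * ε) * (Gs f1 (2 * ε * t) x / Gs f (2 * ε * t) x) := fun t =>
    funext fun x => (hu1 t x).deriv
  have hu2 : ∀ t x, HasDerivAt (fun x => -(2 * ε) * (Gs f1 (2 * ε * t) x / Gs f (2 * ε * t) x))
      (-(2 * ε) * ((Gs f2 (2 * ε * t) x * Gs f (2 * ε * t) x - Gs f1 (2 * ε * t) x * Gs f1 (2 * ε * t) x)
        / (Gs f (2 * ε * t) x) ^ 2)) x := fun t x =>
    ((hx2 _ x).div (hx1 _ x) (hpos _ x).ne').const_mul _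
  have hut : ∀ x t, 0 < t → HasDerivAt (fun s => -(2 * ε) * Real.log (Gs f (2 * ε * s) x))
      (-(2 * ε) * ((Gs f2 (2 * ε * t) x / 2 * (2 * ε)) / Gs f (2 * ε * t) x)) t := by
    intro x t ht
    have h1 : HasDerivAt (fun s : ℝ => 2 * ε * s) (2 * ε) t := by
      simpa using (hasDerivAt_id t).const_mul (2 * ε)
    have h2 := (hHT f f1 f2 C (2 * ε * t) x hB (by positivity))
    have h3 : HasDerivAt (fun s => Gs f (2 * ε * s) x) (Gs f2 (2 * ε * t) x / 2 * (2 * ε)) t :=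
      HasDerivAt.comp t h2 h1
    exact (h3.log (hpos _ x).ne').const_mul _
  refine ⟨⟨?_, ?_, ?_, ?_, ?_, ?_⟩, fun t x => (hu1 t x).deriv⟩
  · intro x t
    simp only [Gs_per f hfp]
  · have h1 : Continuous (fun q : ℝ × ℝ => Gs f (2 * ε * q.2) q.1) :=
      (hHC f C cf hB.b0).comp (by fun_prop : Continuous fun q : ℝ × ℝ => (2 * ε * q.2, q.1))
    exact (continuous_const.mul (h1.log fun q => (hpos _ _).ne')).continuousOn
  · intro x
    simp only [mul_zero, Gs_zero, hf, Real.log_exp]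
    field_simp
  · intro t _
    obtain ⟨h1, -, -⟩ := Gs_contDiff hHX hHC f f1 f2 C hB (2 * ε * t)
    exact contDiff_const.mul (h1.log fun x => (hpos _ _).ne')
  · intro x t ht
    exact (hut x t ht).differentiableAt
  · intro x t ht
    rw [(hut x t ht).deriv, hu1' t, (hu2 t x).deriv]
    have hp := (hpos (2 * ε * t) x).ne'
    field_simp
    ring

end VV176
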