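import Mathlib
import Pool.Agent.Q176.VV.Asm1

open MeasureTheory ProbabilityTheory Filter Topology Set

namespace VV176

/-- the adjoint measure: Doob transform of a Gaussian -/
noncomputable def sig (f : ℝ → ℝ) (ε z T t : ℝ) : Measure ℝ :=
  Measure.map (fun y => z + Real.sqrt (2 * ε * (T - t)) * y)
    ((gaussianReal 0 1).withDensity (fun y =>
      ENNReal.ofReal (Gs f (2 * ε * t) (z + Real.sqrt (2 * ε * (T - t)) * y) / Gs f (2 * ε * T) z)))

theorem int_sig (hHC : TaskHC) (f : ℝ → ℝ) (C c ε z T t : ℝ) (cf : Continuous f)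
    (hC : ∀ x, |f x| ≤ C) (hc : 0 < c) (hcl : ∀ x, c ≤ f x) (h : ℝ → ℝ) (hh : Continuous h) :
    ∫ x, h x ∂(sig f ε z T t) = (∫ y, Gs f (2 * ε * t) (z + Real.sqrt (2 * ε * (T - t)) * y)
      * h (z + Real.sqrt (2 * ε * (T - t)) * y) ∂(gaussianReal 0 1)) / Gs f (2 * ε * T) z := by
  have hpos : ∀ s x, 0 < Gs f s x := fun s x => hc.trans_le (Gs_ge f c C cf hC hcl s x)
  have cG : Continuous (fun y : ℝ => Gs f (2 * ε * t) (z + Real.sqrt (2 * ε * (T - t)) * y)) :=
    (hHC f C cf hC).comp (by fun_prop :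
      Continuous fun y : ℝ => (2 * ε * t, z + Real.sqrt (2 * ε * (T - t)) * y))
  unfold sig
  rw [integral_map (by fun_prop) hh.aestronglyMeasurable]
  rw [integral_withDensity_eq_integral_toReal_smul
    (by exact (cG.div_const _).measurable.ennreal_ofReal)
    (Eventually.of_forall fun y => ENNReal.ofReal_lt_top)]
  rw [← integral_div]
  congr 1
  ext y
  rw [ENNReal.toReal_ofReal (div_nonneg (hpos _ _).le (hpos _ _).le), smul_eq_mul]
  ring

theorem adj (hSG : TaskSG) (hDyn : TaskDyn) (hTerm : TaskTerm) (hHC : TaskHC)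
    (hB2 : TaskB2)
    (g0 f1 f2 : ℝ → ℝ) (C c ε z T : ℝ)
    (hε : 0 < ε) (hT : 0 < T) 
    (hB : B2 (fun y => Real.exp (-(g0 y) / (2 * ε))) f1 f2 C)
    (hc : 0 < c) (hcl : ∀ x, c ≤ Real.exp (-(g0 x) / (2 * ε)))
    (hux : ∀ t x, deriv (fun y => -(2 * ε) *
        Real.log (Gs (fun y => Real.exp (-(g0 y) / (2 * ε))) (2 * ε * t) y)) x
      = -(2 * ε) * (Gs f1 (2 * ε * t) x / Gs (fun y => Real.exp (-(g0 y) / (2 * ε))) (2 * ε * t) x)) :
    AdjointSolution (fun _ p => p ^ 2 / 2)
      (fun x t => -(2 * ε) * Real.log (Gs (fun y => Real.exp (-(g0 y) / (2 * ε))) (2 * ε * t) x))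
      ε z T (sig (fun y => Real.exp (-(g0 y) / (2 * ε))) ε z T) ∧
    muInt (fun x t => -(2 * ε) * Real.log (Gs (fun y => Real.exp (-(g0 y) / (2 * ε))) (2 * ε * t) x))
      (sig (fun y => Real.exp (-(g0 y) / (2 * ε))) ε z T) T (fun _ p _ => p)
      = T * (-(2 * ε) * Gs f1 (2 * ε * T) z / Gs (fun y => Real.exp (-(g0 y) / (2 * ε))) (2 * ε * T) z) := by
  set f : ℝ → ℝ := fun y => Real.exp (-(g0 y) / (2 * ε)) with hf
  have cf : Continuous f := continuous_iff_continuousAt.2 fun x => (hB.d1 x).continuousAt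
  have c1 : Continuous f1 := continuous_iff_continuousAt.2 fun x => (hB.d2 x).continuousAt
  have hpos : ∀ s x, 0 < Gs f s x := fun s x => hc.trans_le (Gs_ge f c C cf hB.b0 hcl s x)
  have cGx : ∀ s, Continuous (fun x => Gs f s x) := fun s =>
    (hHC f C cf hB.b0).comp (by fun_prop : Continuous fun y : ℝ => (s, y))
  have cG1 : ∀ s, Continuous (fun x => Gs f1 s x) := fun s =>
    (hHC f1 C c1 hB.b1).comp (by fun_prop : Continuous fun y : ℝ => (s, y))
  have hint := fun (t : ℝ) (h : ℝ → ℝ) (hh : Continuous h) =>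
    int_sig hHC f C c ε z T t cf hB.b0 hc hcl h hh
  refine ⟨⟨?_, ?_, ?_⟩, ?_⟩
  · intro t ht0 htT
    have h1 : ∫ _x, (1:ℝ) ∂(sig f ε z T t) = 1 := by
      rw [hint t (fun _ => 1) continuous_const]
      simp only [mul_one]
      rw [hSG f C (2 * ε * (T - t)) (2 * ε * t) z cf hB.b0
        (by have : 0 ≤ T - t := by linarith
            positivity) (by positivity)]
      rw [show 2 * ε * (T - t) + 2 * ε * t = 2 * ε * T by ring]
      exact div_self (hpos _ _).ne'
    rw [integral_const, smul_eq_mul, mul_one] at h1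
    constructor
    have h2 : (sig f ε z T t).real univ = 1 := h1
    rw [Measure.real] at h2
    have h3 : sig f ε z T t univ ≠ ⊤ := by
      intro h
      rw [h] at h2
      simp at h2
    rw [← ENNReal.ofReal_toReal h3, h2, ENNReal.ofReal_one]
  · intro h hh hp
    obtain ⟨K, hK⟩ : ∃ K, ∀ x, |h x| ≤ K := by
      have hper : Function.Periodic h 1 := hp
      obtain ⟨K, hK⟩ := (isCompact_Icc (a := (0:ℝ)) (b := 1)).exists_bound_of_continuousOn hh.continuousOn
      refine ⟨K, fun x => ?_⟩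
      obtain ⟨y, hy, hxy⟩ := hper.exists_mem_Ico₀ one_pos x
      rw [hxy]
      exact hK y ⟨hy.1, hy.2.le⟩
    have h1 := hTerm f h (max C K) ε T z cf hh (fun x => (hB.b0 x).trans (le_max_left _ _))
      (fun x => (hK x).trans (le_max_right _ _)) (hHC f C cf hB.b0)
    have h2 := h1.div_const (Gs f (2 * ε * T) z)
    have e0 : Gs f (2 * ε * T) z * h z / Gs f (2 * ε * T) z = h z :=
      mul_div_cancel_left₀ _ (hpos _ _).ne'
    rw [e0] at h2
    exact h2.congr fun t => (hint t h hh).symm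
  · intro h hh hp t ht0 htT
    obtain ⟨K, hK⟩ := hB2 h hh hp
    have hC1 : B2 f f1 f2 (max C K) := ⟨hB.d1, hB.d2, hB.c2, fun x => (hB.b0 x).trans (le_max_left _ _),
      fun x => (hB.b1 x).trans (le_max_left _ _), fun x => (hB.b2 x).trans (le_max_left _ _)⟩
    have hC2 : B2 h (deriv h) (deriv (deriv h)) (max C K) := ⟨hK.d1, hK.d2, hK.c2,
      fun x => (hK.b0 x).trans (le_max_right _ _),
      fun x => (hK.b1 x).trans (le_max_right _ _), fun x => (hK.b2 x).trans (le_max_right _ _)⟩
    have h1 := (hDyn f f1 f2 h (deriv h) (deriv (deriv h)) (max C K) ε t T z hC1 hC2 hε ht0 htT).div_const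
      (Gs f (2 * ε * T) z)
    have ch1 : Continuous (deriv h) := continuous_iff_continuousAt.2 fun x => (hK.d2 x).continuousAt
    have e1 : ∀ x p : ℝ, deriv ((fun (_ : ℝ) (p : ℝ) => p ^ 2 / 2) x) p = p := by
      intro x p
      have : HasDerivAt (fun p : ℝ => p ^ 2 / 2) p p := by
        have := ((hasDerivAt_id p).pow 2).div_const 2
        refine this.congr_deriv ?_
        simp
      exact this.deriv
    have e2 : (fun x => deriv ((fun (_ : ℝ) (p : ℝ) => p ^ 2 / 2) x)
          (deriv (fun y => -(2 * ε) * Real.log (Gs f (2 * ε * t) y)) x) * deriv h x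
          - ε * deriv (deriv h) x)
        = fun x => -(2 * ε) * (Gs f1 (2 * ε * t) x / Gs f (2 * ε * t) x) * deriv h x
          - ε * deriv (deriv h) x := by
      funext x
      rw [e1 x, hux]
    have hgoal : ∫ x, (deriv ((fun (_ : ℝ) (p : ℝ) => p ^ 2 / 2) x)
          (deriv (fun y => -(2 * ε) * Real.log (Gs f (2 * ε * t) y)) x) * deriv h x
          - ε * deriv (deriv h) x) ∂(sig f ε z T t) = 
        (∫ y, (-(2 * ε) * Gs f1 (2 * ε * t) (z + Real.sqrt (2 * ε * (T - t)) * y)
        * deriv h (z + Real.sqrt (2 * ε * (T - t)) * y)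
      - ε * (Gs f (2 * ε * t) (z + Real.sqrt (2 * ε * (T - t)) * y)
        * deriv (deriv h) (z + Real.sqrt (2 * ε * (T - t)) * y))) ∂(gaussianReal 0 1)) / Gs f (2 * ε * T) z := by
      rw [e2, hint t]
      · congr 2
        ext y
        have := (hpos (2 * ε * t) (z + Real.sqrt (2 * ε * (T - t)) * y)).ne'
        field_simp
      · have c3 : Continuous (deriv (deriv h)) := hK.c2
        have c4 := (cG1 (2 * ε * t)).div (cGx (2 * ε * t)) (fun x => (hpos _ x).ne')
        exact ((continuous_const.mul c4).mul ch1).sub (continuous_const.mul c3)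
    rw [hgoal]
    refine h1.congr_of_eventuallyEq ?_
    exact Eventually.of_forall fun s => hint s h hh.continuous
  · unfold muInt
    have h1 : ∀ t ∈ Set.uIcc 0 T, ∫ x, deriv (fun y => -(2 * ε) * Real.log (Gs f (2 * ε * t) y)) x
        ∂(sig f ε z T t) = -(2 * ε) * Gs f1 (2 * ε * T) z / Gs f (2 * ε * T) z := by
      intro t ht
      rw [Set.uIcc_of_le hT.le] at ht
      have e3 : (fun x => deriv (fun y => -(2 * ε) * Real.log (Gs f (2 * ε * t) y)) x) = fun x =>
        -(2 * ε) * (Gs f1 (2 * ε * t) x / Gs f (2 * ε * t) x) := funext fun x => hux t x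
      rw [e3, hint t]
      · congr 1
        have := hSG f1 C (2 * ε * (T - t)) (2 * ε * t) z c1 hB.b1
          (by have : 0 ≤ T - t := by linarith [ht.2]
              positivity) (by have := ht.1; positivity)
        rw [show 2 * ε * (T - t) + 2 * ε * t = 2 * ε * T by ring] at this
        rw [← this, ← integral_const_mul]
        congr 1
        ext y
        have := (hpos (2 * ε * t) (z + Real.sqrt (2 * ε * (T - t)) * y)).ne'
        field_simp
      · exact continuous_const.mul ((cG1 (2 * ε * t)).div (cGx (2 * ε * t)) (fun x => (hpos _ x).ne'))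
    rw [intervalIntegral.integral_congr (g := fun _ => -(2 * ε) * Gs f1 (2 * ε * T) z / Gs f (2 * ε * T) z)
      (fun t ht => h1 t ht)]
    simp only [intervalIntegral.integral_const, sub_zero, smul_eq_mul]

end VV176
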