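import Mathlib
import Pool.Agent.Q176.VV.Asm2

open MeasureTheory ProbabilityTheory Filter Topology Set

namespace VV176

theorem M_ge (l : ℝ) : 1 ≤ M l := by
  unfold M
  linarith [Real.neg_one_le_sin (Real.log (1 + l ^ 2))]

theorem M_cont : Continuous M := by
  unfold M
  refine continuous_const.add (Real.continuous_sin.comp (Continuous.log (by fun_prop) ?_))
  intro x
  positivity

/-- the Gibbs weight -/
theorem gibbs_weight (e y : ℝ) (he : 0 < e) :
    Real.exp (-(g y) / (2 * e)) * Real.exp (-(y ^ 2) / (2 * (2 * e * (1 / (4 * Real.pi ^ 2)))))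
      = Real.exp (-(VV y) / (2 * e)) := by
  rw [← Real.exp_add]
  congr 1
  unfold VV
  have := Real.pi_pos
  field_simp
  ring

theorem exp_low (hPP : TaskPP) (hLow : TaskLow) (hW : TaskWellId) :
    (∀ s, -(1/4) ≤ s → (4 * Real.pi ^ 2 / 20) * s ^ 4 / (1 + s ^ 2) ≤ VV (1/4 + s)) ∧
    (∀ s, -(1/4) ≤ s → (4 * Real.pi ^ 2 / 20) * s ^ 4 / (1 + s ^ 2) ≤ VV (-(1/4) - s)) := by
  have hpi := Real.pi_gt_three
  have key : ∀ s m : ℝ, -(1/4) ≤ s → 1 ≤ m → (4 * Real.pi ^ 2 / 20) * s ^ 4 / (1 + s ^ 2) ≤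
      ((2 * Real.pi * s) ^ 2 - Real.sin (2 * Real.pi * s) ^ 2) / 2
    + Real.pi / 4 * PP (2 * Real.pi * s)
    + 10 * Real.sin (2 * Real.pi * s) ^ 4 * m := by
    intro s m hs hm
    refine le_trans ?_ (hLow hPP (2 * Real.pi * s) m (by nlinarith) hm)
    rw [div_le_div_iff₀ (by positivity) (by positivity)]
    have h1 : (1:ℝ) + (2 * Real.pi * s) ^ 2 ≤ 4 * Real.pi ^ 2 * (1 + s ^ 2) := by
      nlinarith [sq_nonneg s]
    have h2 : 0 ≤ 4 * Real.pi ^ 2 * s ^ 4 := by positivity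
    calc 4 * Real.pi ^ 2 / 20 * s ^ 4 * (20 * (1 + (2 * Real.pi * s) ^ 2))
        = 4 * Real.pi ^ 2 * s ^ 4 * (1 + (2 * Real.pi * s) ^ 2) := by ring
      _ ≤ 4 * Real.pi ^ 2 * s ^ 4 * (4 * Real.pi ^ 2 * (1 + s ^ 2)) :=
          mul_le_mul_of_nonneg_left h1 h2
      _ = (2 * Real.pi * s) ^ 4 * (1 + s ^ 2) := by ring
  constructor
  · intro s hs
    rw [hW.1 s]
    exact key s _ hs (M_ge _)
  · intro s hs
    rw [hW.2 s]
    exact key s _ hs (M_ge _)

/-- limit of the Gibbs average along a sequence -/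
theorem gibbs_lim (hPP : TaskPP) (hSS : TaskSS) (hLow : TaskLow) (hW : TaskWellId) (hWL : TaskWellLim)
    (hLap : TaskLap) (hJ : TaskJ) (hSplit : TaskSplit) (hKK : ContDiff ℝ 2 g)
    (hper : ∀ y, g (y + 1) = g y)
    (r : ℕ → ℝ) (m : ℝ) (hm : 1 ≤ m) (hr : ∀ k, 0 < r k) (hr0 : Tendsto r atTop (𝓝 0))
    (hM : ∀ x, x ≠ 0 → Tendsto (fun k => M (Real.log (Real.sin (Real.pi * (r k * x)) ^ 2))) atTop (𝓝 m)) :
    Tendsto (fun k => -((∫ y, y * Real.exp (-(VV y) / (2 * (r k) ^ 4)))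
        / ∫ y, Real.exp (-(VV y) / (2 * (r k) ^ 4)))) atTop
      (𝓝 (-(((1/4) * J ((2 * Real.pi) ^ 4 * (1/6 + 10 * m)) - (1/4) * J ((2 * Real.pi) ^ 4 * (1/6 + 10 * 2)))
        / (J ((2 * Real.pi) ^ 4 * (1/6 + 10 * m)) + J ((2 * Real.pi) ^ 4 * (1/6 + 10 * 2)))))) := by
  obtain ⟨low1, low2⟩ := exp_low hPP hLow hW
  have hpi := Real.pi_pos
  set c1 : ℝ := (2 * Real.pi) ^ 4 * (1/6 + 10 * m) with hc1
  set c2 : ℝ := (2 * Real.pi) ^ 4 * (1/6 + 10 * 2) with hc2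
  have c1p : 0 < c1 := by positivity
  have c2p : 0 < c2 := by positivity
  have J1 : 0 < J c1 := (hJ (c1 / 2) c1 (by positivity) (by linarith)).1
  have J2 : 0 < J c2 := (hJ (c2 / 2) c2 (by positivity) (by linarith)).1
  have cg : Continuous g := hKK.continuous
  have cV : Continuous VV := by
    unfold VV
    fun_prop
  have lim1 : ∀ x, x ≠ 0 → Tendsto (fun k => VV (1/4 + r k * x) / (r k) ^ 4) atTop (𝓝 (c1 * x ^ 4)) := by
    intro x hx
    have := hWL hPP hSS r (fun k => M (Real.log (Real.sin (Real.pi * (r k * x)) ^ 2))) m x hr hr0 hx (hM x hx)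
    refine this.congr fun k => ?_
    rw [hW.1 (r k * x)]
  have lim2 : ∀ x, x ≠ 0 → Tendsto (fun k => VV (-(1/4) - r k * x) / (r k) ^ 4) atTop (𝓝 (c2 * x ^ 4)) := by
    intro x hx
    have hN : Tendsto (fun k => M (Real.log (Real.cos (Real.pi * (r k * x)) ^ 2))) atTop (𝓝 2) := by
      have h1 : Tendsto (fun k => Real.cos (Real.pi * (r k * x)) ^ 2) atTop (𝓝 1) := by
        have h2 : Tendsto (fun k => Real.pi * (r k * x)) atTop (𝓝 (Real.pi * (0 * x))) :=
          (hr0.mul_const x).const_mul _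
        have h3 := ((Real.continuous_cos.tendsto _).comp h2).pow 2
        simpa using h3
      have h4 := h1.log one_ne_zero
      have h5 := (M_cont.tendsto _).comp h4
      have h6 : M (Real.log 1) = 2 := by simp [M]
      rw [h6] at h5
      exact h5
    have := hWL hPP hSS r _ 2 x hr hr0 hx hN
    refine this.congr fun k => ?_
    rw [hW.2 (r k * x)]
  have L1 := fun a b => hLap (fun s => VV (1/4 + s)) c1 (4 * Real.pi ^ 2 / 20) a b r (by fun_prop)
    c1p (by positivity) hr hr0 lim1 low1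
  have L2 := fun a b => hLap (fun s => VV (-(1/4) - s)) c2 (4 * Real.pi ^ 2 / 20) a b r (by fun_prop)
    c2p (by positivity) hr hr0 lim2 low2
  -- integrability
  obtain ⟨G, hG⟩ : ∃ G, ∀ x, |g x| ≤ G := by
    have hp : Function.Periodic g 1 := hper
    obtain ⟨K, hK⟩ := (isCompact_Icc (a := (0:ℝ)) (b := 1)).exists_bound_of_continuousOn cg.continuousOn
    refine ⟨K, fun x => ?_⟩
    obtain ⟨y, hy, hxy⟩ := hp.exists_mem_Ico₀ one_pos x
    rw [hxy]
    exact hK y ⟨hy.1, hy.2.le⟩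
  have bd : ∀ k y, Real.exp (-(VV y) / (2 * (r k) ^ 4))
      ≤ Real.exp (G / (2 * (r k) ^ 4)) * Real.exp (-(Real.pi ^ 2 / (r k) ^ 4) * y ^ 2) := by
    intro k y
    rw [← Real.exp_add]
    apply Real.exp_le_exp.2
    have h0 := hr k
    have h1 : -(VV y) ≤ G - 2 * Real.pi ^ 2 * y ^ 2 := by
      unfold VV
      linarith [neg_abs_le (g y), hG y]
    calc -(VV y) / (2 * (r k) ^ 4) ≤ (G - 2 * Real.pi ^ 2 * y ^ 2) / (2 * (r k) ^ 4) :=
          div_le_div_of_nonneg_right h1 (by positivity)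
      _ = G / (2 * (r k) ^ 4) + -(Real.pi ^ 2 / (r k) ^ 4) * y ^ 2 := by
          field_simp
          ring
  have I0 : ∀ k, Integrable (fun y => Real.exp (-(VV y) / (2 * (r k) ^ 4))) := by
    intro k
    have h0 := hr k
    have h1 := (integrable_exp_neg_mul_sq (b := Real.pi ^ 2 / (r k) ^ 4) (by positivity)).const_mul
      (Real.exp (G / (2 * (r k) ^ 4)))
    refine h1.mono' (Continuous.aestronglyMeasurable (by fun_prop)) (Eventually.of_forall fun y => ?_)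
    rw [Real.norm_eq_abs, abs_of_pos (Real.exp_pos _)]
    exact bd k y
  have I1 : ∀ k, Integrable (fun y => y * Real.exp (-(VV y) / (2 * (r k) ^ 4))) := by
    intro k
    have h0 := hr k
    have h1 := ((integrable_mul_exp_neg_mul_sq (b := Real.pi ^ 2 / (r k) ^ 4) (by positivity)).abs).const_mul
      (Real.exp (G / (2 * (r k) ^ 4)))
    refine h1.mono' (Continuous.aestronglyMeasurable (by fun_prop)) (Eventually.of_forall fun y => ?_)
    rw [Real.norm_eq_abs, abs_mul, abs_mul, abs_of_pos (Real.exp_pos _), abs_of_pos (Real.exp_pos _)]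
    calc |y| * Real.exp (-(VV y) / (2 * (r k) ^ 4)) ≤ |y| * (Real.exp (G / (2 * (r k) ^ 4)) *
          Real.exp (-(Real.pi ^ 2 / (r k) ^ 4) * y ^ 2)) :=
          mul_le_mul_of_nonneg_left (bd k y) (abs_nonneg _)
      _ = _ := by ring
  -- split
  have S0 : ∀ k, (r k)⁻¹ * ∫ y, Real.exp (-(VV y) / (2 * (r k) ^ 4))
      = (r k)⁻¹ * (∫ s in Ioi (-(1/4:ℝ)), (1 + 0 * s) * Real.exp (-(VV (1/4 + s)) / (2 * (r k) ^ 4)))
        + (r k)⁻¹ * (∫ s in Ioi (-(1/4:ℝ)), (1 + 0 * s) * Real.exp (-(VV (-(1/4) - s)) / (2 * (r k) ^ 4))) := by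
    intro k
    rw [hSplit _ (I0 k), mul_add]
    simp only [zero_mul, add_zero, one_mul]
  have S1 : ∀ k, (r k)⁻¹ * ∫ y, y * Real.exp (-(VV y) / (2 * (r k) ^ 4))
      = (r k)⁻¹ * (∫ s in Ioi (-(1/4:ℝ)), (1/4 + 1 * s) * Real.exp (-(VV (1/4 + s)) / (2 * (r k) ^ 4)))
        + (r k)⁻¹ * (∫ s in Ioi (-(1/4:ℝ)), (-(1/4) + (-1) * s) * Real.exp (-(VV (-(1/4) - s)) / (2 * (r k) ^ 4))) := by
    intro k
    rw [hSplit _ (I1 k), mul_add]
    congr 2
    · congr 1
      ext s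
      ring_nf
    · congr 1
      ext s
      ring_nf
  have T0 : Tendsto (fun k => (r k)⁻¹ * ∫ y, Real.exp (-(VV y) / (2 * (r k) ^ 4))) atTop
      (𝓝 (J c1 + J c2)) := by
    have h := (L1 1 0).add (L2 1 0)
    rw [one_mul, one_mul] at h
    exact h.congr fun k => (S0 k).symm
  have T1 : Tendsto (fun k => (r k)⁻¹ * ∫ y, y * Real.exp (-(VV y) / (2 * (r k) ^ 4))) atTop
      (𝓝 ((1/4) * J c1 - (1/4) * J c2)) := by
    have h := (L1 (1/4) 1).add (L2 (-(1/4)) (-1))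
    rw [show (1/4) * J c1 + -(1/4) * J c2 = (1/4) * J c1 - (1/4) * J c2 by ring] at h
    exact h.congr fun k => (S1 k).symm
  have T2 := (T1.div T0 (by positivity)).neg
  refine T2.congr fun k => ?_
  have h0 := (hr k).ne'
  simp only [Pi.div_apply]
  rw [mul_div_mul_left _ _ (inv_ne_zero h0)]

end VV176
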