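import Pool.Agent.Q176.VV.Stmts

/-! # TaskB2 (helper150) -/

open Filter Topology

namespace VV176

theorem periodic_bdd {f : ℝ → ℝ} (hc : Continuous f) (hp : ∀ x, f (x + 1) = f x) :
    ∃ C, ∀ x, |f x| ≤ C := by
  have h := (show Function.Periodic f 1 from hp).isBounded_of_continuous one_ne_zero hc
  obtain ⟨C, hC⟩ := h.exists_norm_le
  exact ⟨C, fun x => hC _ (Set.mem_range_self x)⟩

theorem deriv_periodic {f : ℝ → ℝ} (hp : ∀ x, f (x + 1) = f x) (x : ℝ) :
    deriv f (x + 1) = deriv f x := by
  rw [← deriv_comp_add_const f 1 x]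
  congr 1
  funext y
  exact hp y

theorem taskB2 : TaskB2 := by
  intro f hf hp
  have hd : Differentiable ℝ f := hf.differentiable (by norm_num)
  have hf1 : ContDiff ℝ 1 (deriv f) := by
    have : ContDiff ℝ (1 + 1) f := by
      have e : ((1 : WithTop ℕ∞) + 1) = 2 := by norm_num
      rw [e]; exact hf
    exact (contDiff_succ_iff_deriv.1 this).2.2
  have hd1 : Differentiable ℝ (deriv f) := hf1.differentiable (by norm_num)
  have hc2 : Continuous (deriv (deriv f)) := hf1.continuous_deriv (by norm_num)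
  have hp1 := deriv_periodic hp
  have hp2 := deriv_periodic hp1
  obtain ⟨C0, h0⟩ := periodic_bdd hd.continuous hp
  obtain ⟨C1, h1⟩ := periodic_bdd hd1.continuous hp1
  obtain ⟨C2, h2⟩ := periodic_bdd hc2 hp2
  refine ⟨max C0 (max C1 C2), fun x => (hd x).hasDerivAt, fun x => (hd1 x).hasDerivAt, hc2,
    fun x => (h0 x).trans (le_max_left _ _), fun x => (h1 x).trans ?_, fun x => (h2 x).trans ?_⟩
  · exact (le_max_left _ _).trans (le_max_right _ _)
  · exact (le_max_right _ _).trans (le_max_right _ _)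

end VV176
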