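import Pool.Agent.Q176.VV.Stmts

open MeasureTheory ProbabilityTheory Filter Topology Set

namespace VV176

namespace Dyn

theorem pdf_deriv (t : ℝ) :
    HasDerivAt (gaussianPDFReal 0 1) (-(t * gaussianPDFReal 0 1 t)) t := by
  have h : gaussianPDFReal 0 1 = fun x : ℝ =>
      (Real.sqrt (2 * Real.pi * ((1 : NNReal) : ℝ)))⁻¹ *
        Real.exp (-(x - 0) ^ 2 / (2 * ((1 : NNReal) : ℝ))) := by
    rw [gaussianPDFReal_def]
  rw [h]
  have h1 : HasDerivAt (fun x : ℝ => -(x - 0) ^ 2 / (2 * ((1 : NNReal) : ℝ))) (-t) t := by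
    have := (((hasDerivAt_id t).sub_const (0:ℝ)).pow 2).neg.div_const (2 * ((1 : NNReal) : ℝ))
    refine this.congr_deriv ?_
    simp only [id, sub_zero, NNReal.coe_one, mul_one]
    norm_num
    ring
  have h2 := (h1.exp).const_mul (Real.sqrt (2 * Real.pi * ((1 : NNReal) : ℝ)))⁻¹
  refine h2.congr_deriv ?_
  ring

theorem integrable_gauss_iff (f : ℝ → ℝ) (hf : Integrable f (gaussianReal 0 1)) :
    Integrable fun t => f t * gaussianPDFReal 0 1 t := by
  rw [gaussianReal_of_var_ne_zero 0 (by norm_num : (1 : NNReal) ≠ 0),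
    integrable_withDensity_iff_integrable_smul' (measurable_gaussianPDF 0 1)
      (Eventually.of_forall fun _ => gaussianPDF_lt_top)] at hf
  refine hf.congr (Eventually.of_forall fun t => ?_)
  simp only [smul_eq_mul, toReal_gaussianPDF]
  ring

theorem stein1 (g g' : ℝ → ℝ) (C : ℝ) (hd : ∀ t, HasDerivAt g (g' t) t) (hC : ∀ t, |g t| ≤ C)
    (hC' : ∀ t, |g' t| ≤ C) (hm' : Measurable g') :
    ∫ t, t * g t ∂(gaussianReal 0 1) = ∫ t, g' t ∂(gaussianReal 0 1) := by
  have hgm : Measurable g := by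
    have : Continuous g := continuous_iff_continuousAt.2 fun t => (hd t).continuousAt
    exact this.measurable
  have hid : Integrable (fun t : ℝ => t) (gaussianReal 0 1) :=
    (memLp_id_gaussianReal 1).integrable (by norm_num)
  have i1 : Integrable (fun t => t * g t) (gaussianReal 0 1) :=
    hid.mul_bdd (c := C) hgm.aestronglyMeasurable (Eventually.of_forall fun t => hC t)
  have i2 : Integrable g' (gaussianReal 0 1) :=
    Integrable.of_bound hm'.aestronglyMeasurable C (Eventually.of_forall fun t => hC' t)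
  have i3 : Integrable g (gaussianReal 0 1) :=
    Integrable.of_bound hgm.aestronglyMeasurable C (Eventually.of_forall fun t => hC t)
  have j1 := integrable_gauss_iff _ i1
  have j2 := integrable_gauss_iff _ i2
  have j3 := integrable_gauss_iff _ i3
  have key := integral_mul_deriv_eq_deriv_mul_of_integrable (u := g) (u' := g')
    (v := gaussianPDFReal 0 1) (v' := fun t => -(t * gaussianPDFReal 0 1 t))
    (fun x _ => hd x) (fun x _ => pdf_deriv x)
    (j1.neg.congr (Eventually.of_forall fun t => by simp only [Pi.neg_apply, Pi.mul_apply]; ring))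
    (j2.congr (Eventually.of_forall fun t => by simp only [Pi.mul_apply]))
    (j3.congr (Eventually.of_forall fun t => by simp only [Pi.mul_apply]))
  rw [integral_gaussianReal_eq_integral_smul (by norm_num),
    integral_gaussianReal_eq_integral_smul (by norm_num)]
  have e1 : ∫ x, gaussianPDFReal 0 1 x • (x * g x) =
      -∫ x, g x * -(x * gaussianPDFReal 0 1 x) := by
    rw [← integral_neg]
    congr 1; ext x; simp only [smul_eq_mul]; ring
  have e2 : ∫ x, gaussianPDFReal 0 1 x • g' x = ∫ x, g' x * gaussianPDFReal 0 1 x := by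
    congr 1; ext x; simp only [smul_eq_mul]; ring
  rw [e1, e2, key, neg_neg]


theorem cB {f f1 f2 : ℝ → ℝ} {C : ℝ} (hB : B2 f f1 f2 C) :
    Continuous f ∧ Continuous f1 ∧ 0 ≤ C :=
  ⟨continuous_iff_continuousAt.2 fun t => (hB.d1 t).continuousAt,
    continuous_iff_continuousAt.2 fun t => (hB.d2 t).continuousAt,
    (abs_nonneg _).trans (hB.b0 0)⟩

theorem gs_cont {f : ℝ → ℝ} {C : ℝ} (hf : Continuous f) (hb : ∀ x, |f x| ≤ C) (s : ℝ) :
    Continuous (fun x => Gs f s x) := by
  unfold Gs
  refine continuous_of_dominated (bound := fun _ => C) ?_ ?_ (integrable_const _) ?_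
  · intro x
    exact (by fun_prop : Continuous fun y => f (x + Real.sqrt s * y)).aestronglyMeasurable
  · intro x
    exact Eventually.of_forall fun y => hb _
  · exact Eventually.of_forall fun y => by fun_prop

theorem gs_bd {f : ℝ → ℝ} {C : ℝ} (hb : ∀ x, |f x| ≤ C) (s x : ℝ) : |Gs f s x| ≤ C := by
  have h := norm_integral_le_of_norm_le_const (μ := gaussianReal 0 1)
    (f := fun y => f (x + Real.sqrt s * y)) (C := C) (Eventually.of_forall fun y => hb _)
  simpa [Gs] using h

theorem gs_dx {f f1 : ℝ → ℝ} {C : ℝ} (hd : ∀ x, HasDerivAt f (f1 x) x) (h1 : Continuous f1)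
    (hb : ∀ x, |f x| ≤ C) (hb1 : ∀ x, |f1 x| ≤ C) (s x : ℝ) :
    HasDerivAt (fun x => Gs f s x) (Gs f1 s x) x := by
  have hfc : Continuous f := continuous_iff_continuousAt.2 fun t => (hd t).continuousAt
  have h := hasDerivAt_integral_of_dominated_loc_of_deriv_le (μ := gaussianReal 0 1)
    (F := fun x y => f (x + Real.sqrt s * y)) (F' := fun x y => f1 (x + Real.sqrt s * y)) (x₀ := x)
    (s := univ) (bound := fun _ => C) univ_mem
    (Eventually.of_forall fun x =>
      (by fun_prop : Continuous fun y => f (x + Real.sqrt s * y)).aestronglyMeasurable)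
    (Integrable.of_bound (by fun_prop : Continuous fun y => f (x + Real.sqrt s * y)).aestronglyMeasurable
      C (Eventually.of_forall fun y => hb _))
    (by fun_prop : Continuous fun y => f1 (x + Real.sqrt s * y)).aestronglyMeasurable
    (Eventually.of_forall fun y x _ => hb1 _) (integrable_const _)
    (Eventually.of_forall fun y x _ => (hd _).comp_add_const x (Real.sqrt s * y))
  exact h.2

theorem idint : Integrable (fun t : ℝ => t) (gaussianReal 0 1) :=
  (memLp_id_gaussianReal 1).integrable (by norm_num)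

theorem dα {e T τ : ℝ} (he : 0 < e) (h : τ < T) :
    HasDerivAt (fun t => Real.sqrt (2 * e * (T - t))) (-(e / Real.sqrt (2 * e * (T - τ)))) τ := by
  have h1 : HasDerivAt (fun t : ℝ => 2 * e * (T - t)) (2 * e * (-1)) τ :=
    ((hasDerivAt_id τ).const_sub T).const_mul (2 * e)
  have h2 : 0 < 2 * e * (T - τ) := by
    have := sub_pos.2 h
    positivity
  refine (h1.sqrt h2.ne').congr_deriv ?_
  have h3 : Real.sqrt (2 * e * (T - τ)) ≠ 0 := (Real.sqrt_pos.2 h2).ne'
  field_simp

theorem dβ {e τ : ℝ} (he : 0 < e) (h : 0 < τ) :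
    HasDerivAt (fun t => Real.sqrt (2 * e * t)) (e / Real.sqrt (2 * e * τ)) τ := by
  have h1 : HasDerivAt (fun t : ℝ => 2 * e * t) (2 * e * 1) τ :=
    (hasDerivAt_id τ).const_mul (2 * e)
  have h2 : 0 < 2 * e * τ := by positivity
  refine (h1.sqrt h2.ne').congr_deriv ?_
  have h3 : Real.sqrt (2 * e * τ) ≠ 0 := (Real.sqrt_pos.2 h2).ne'
  field_simp

theorem path {f f1 f2 : ℝ → ℝ} {C : ℝ} (hB : B2 f f1 f2 C) {e T z y τ A : ℝ} (he : 0 < e)
    {U : Set ℝ} (hU : IsOpen U) (hτ : τ ∈ U) (hUp : ∀ t ∈ U, 0 < t ∧ t < T)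
    (hA1 : ∀ t ∈ U, |e / Real.sqrt (2 * e * (T - t))| ≤ A)
    (hA2 : ∀ t ∈ U, |e / Real.sqrt (2 * e * t)| ≤ A) :
    HasDerivAt (fun t => Gs f (2 * e * t) (z + Real.sqrt (2 * e * (T - t)) * y))
      (-(e / Real.sqrt (2 * e * (T - τ))) * y * Gs f1 (2 * e * τ) (z + Real.sqrt (2 * e * (T - τ)) * y)
        + e * Gs f2 (2 * e * τ) (z + Real.sqrt (2 * e * (T - τ)) * y)) τ := by
  obtain ⟨hfc, hf1c, hC⟩ := cB hB
  have hf2c := hB.c2
  have hA0 : 0 ≤ A := (abs_nonneg _).trans (hA1 τ hτ)
  have h := hasDerivAt_integral_of_dominated_loc_of_deriv_le (μ := gaussianReal 0 1)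
    (F := fun t w => f (z + Real.sqrt (2 * e * (T - t)) * y + Real.sqrt (2 * e * t) * w))
    (F' := fun t w => f1 (z + Real.sqrt (2 * e * (T - t)) * y + Real.sqrt (2 * e * t) * w) *
      (-(e / Real.sqrt (2 * e * (T - t))) * y + e / Real.sqrt (2 * e * t) * w)) (x₀ := τ)
    (s := U) (bound := fun w => C * (A * |y| + A * |w|)) (hU.mem_nhds hτ)
    (Eventually.of_forall fun t => (by fun_prop : Continuous fun w =>
      f (z + Real.sqrt (2 * e * (T - t)) * y + Real.sqrt (2 * e * t) * w)).aestronglyMeasurable)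
    (Integrable.of_bound (by fun_prop : Continuous fun w =>
      f (z + Real.sqrt (2 * e * (T - τ)) * y + Real.sqrt (2 * e * τ) * w)).aestronglyMeasurable
      C (Eventually.of_forall fun y => hB.b0 _))
    (by fun_prop : Continuous fun w =>
      f1 (z + Real.sqrt (2 * e * (T - τ)) * y + Real.sqrt (2 * e * τ) * w) *
      (-(e / Real.sqrt (2 * e * (T - τ))) * y + e / Real.sqrt (2 * e * τ) * w)).aestronglyMeasurable
    (Eventually.of_forall fun w t ht => by
      rw [norm_mul, Real.norm_eq_abs, Real.norm_eq_abs]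
      refine mul_le_mul (hB.b1 _) ?_ (abs_nonneg _) hC
      refine (abs_add_le _ _).trans ?_
      rw [abs_mul, abs_mul, abs_neg]
      exact add_le_add (mul_le_mul_of_nonneg_right (hA1 t ht) (abs_nonneg _))
        (mul_le_mul_of_nonneg_right (hA2 t ht) (abs_nonneg _)))
    (((integrable_const (A * |y|)).add ((idint.norm).const_mul A)).const_mul C)
    (Eventually.of_forall fun w t ht => by
      have k1 := ((dα (T := T) he (hUp t ht).2).mul_const y).const_add z
      have k2 := (dβ he (hUp t ht).1).mul_const w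
      exact (hB.d1 _).comp t (k1.add k2))
  refine h.2.congr_deriv ?_
  have hst := stein1 (fun w => f1 (z + Real.sqrt (2 * e * (T - τ)) * y + Real.sqrt (2 * e * τ) * w))
    (fun w => f2 (z + Real.sqrt (2 * e * (T - τ)) * y + Real.sqrt (2 * e * τ) * w) *
      Real.sqrt (2 * e * τ)) (C + C * Real.sqrt (2 * e * τ))
    (fun w => by
      have k2 := ((hasDerivAt_id w).const_mul (Real.sqrt (2 * e * τ))).const_add
        (z + Real.sqrt (2 * e * (T - τ)) * y)
      rw [mul_one] at k2
      exact (hB.d2 _).comp w k2)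
    (fun w => (hB.b1 _).trans (le_add_of_nonneg_right (mul_nonneg hC (Real.sqrt_nonneg _))))
    (fun w => by
      rw [abs_mul, abs_of_nonneg (Real.sqrt_nonneg _)]
      exact (mul_le_mul_of_nonneg_right (hB.b2 _) (Real.sqrt_nonneg _)).trans
        (le_add_of_nonneg_left hC))
    (by fun_prop : Continuous fun w =>
      f2 (z + Real.sqrt (2 * e * (T - τ)) * y + Real.sqrt (2 * e * τ) * w) *
      Real.sqrt (2 * e * τ)).measurable
  have i1 : Integrable (fun w => f1 (z + Real.sqrt (2 * e * (T - τ)) * y + Real.sqrt (2 * e * τ) * w))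
      (gaussianReal 0 1) :=
    Integrable.of_bound (by fun_prop : Continuous fun w =>
      f1 (z + Real.sqrt (2 * e * (T - τ)) * y + Real.sqrt (2 * e * τ) * w)).aestronglyMeasurable
      C (Eventually.of_forall fun y => hB.b1 _)
  have i2 : Integrable (fun w => w *
      f1 (z + Real.sqrt (2 * e * (T - τ)) * y + Real.sqrt (2 * e * τ) * w)) (gaussianReal 0 1) :=
    idint.mul_bdd (c := C) (by fun_prop : Continuous fun w =>
      f1 (z + Real.sqrt (2 * e * (T - τ)) * y + Real.sqrt (2 * e * τ) * w)).aestronglyMeasurable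
      (Eventually.of_forall fun t => hB.b1 _)
  have e1 : ∫ w, f1 (z + Real.sqrt (2 * e * (T - τ)) * y + Real.sqrt (2 * e * τ) * w) *
      (-(e / Real.sqrt (2 * e * (T - τ))) * y + e / Real.sqrt (2 * e * τ) * w) ∂(gaussianReal 0 1) =
      -(e / Real.sqrt (2 * e * (T - τ))) * y *
        ∫ w, f1 (z + Real.sqrt (2 * e * (T - τ)) * y + Real.sqrt (2 * e * τ) * w) ∂(gaussianReal 0 1) +
      e / Real.sqrt (2 * e * τ) * ∫ w, w *
        f1 (z + Real.sqrt (2 * e * (T - τ)) * y + Real.sqrt (2 * e * τ) * w) ∂(gaussianReal 0 1) := by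
    rw [← integral_const_mul, ← integral_const_mul, ← integral_add (i1.const_mul _) (i2.const_mul _)]
    congr 1
    ext w
    ring
  rw [e1, hst, integral_mul_const]
  have h3 : Real.sqrt (2 * e * τ) ≠ 0 :=
    (Real.sqrt_pos.2 (by have := (hUp τ hτ).1; positivity)).ne'
  unfold Gs
  have h4 : ∀ X : ℝ, e / Real.sqrt (2 * e * τ) * (X * Real.sqrt (2 * e * τ)) = e * X := by
    intro X
    generalize Real.sqrt (2 * e * τ) = b at h3
    field_simp
  rw [h4]

end Dyn

open Dyn

theorem taskDyn : TaskDyn := by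
  intro f f1 f2 h h1 h2 C e t T z hB hH he ht hT
  obtain ⟨hfc, hf1c, hC⟩ := cB hB
  obtain ⟨hhc, hh1c, -⟩ := cB hH
  have hf2c := hB.c2
  have hh2c := hH.c2
  let U : Set ℝ := Ioo (t / 2) ((t + T) / 2)
  have hU : IsOpen U := isOpen_Ioo
  have htU : t ∈ U := ⟨by linarith, by linarith⟩
  have hUp : ∀ s ∈ U, 0 < s ∧ s < T := fun s hs => ⟨by have := hs.1; linarith, by have := hs.2; linarith⟩
  obtain ⟨A, hA⟩ : ∃ A, A = e / Real.sqrt (e * (T - t)) + e / Real.sqrt (e * t) := ⟨_, rfl⟩
  have hTt := sub_pos.2 hT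
  have hA1 : ∀ s ∈ U, |e / Real.sqrt (2 * e * (T - s))| ≤ A := by
    intro s hs
    have h3 : e * (T - t) ≤ 2 * e * (T - s) := by
      have := hs.2
      nlinarith
    rw [abs_of_nonneg (by positivity), hA]
    have h4 : e / Real.sqrt (2 * e * (T - s)) ≤ e / Real.sqrt (e * (T - t)) :=
      div_le_div_of_nonneg_left he.le (Real.sqrt_pos.2 (by positivity)) (Real.sqrt_le_sqrt h3)
    have h5 : 0 ≤ e / Real.sqrt (e * t) := by positivity
    linarith
  have hA2 : ∀ s ∈ U, |e / Real.sqrt (2 * e * s)| ≤ A := by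
    intro s hs
    have h3 : e * t ≤ 2 * e * s := by
      have := hs.1
      nlinarith
    rw [abs_of_nonneg (by positivity), hA]
    have h4 : e / Real.sqrt (2 * e * s) ≤ e / Real.sqrt (e * t) :=
      div_le_div_of_nonneg_left he.le (Real.sqrt_pos.2 (by positivity)) (Real.sqrt_le_sqrt h3)
    have h5 : 0 ≤ e / Real.sqrt (e * (T - t)) := by positivity
    linarith
  have hA0 : 0 ≤ A := (abs_nonneg _).trans (hA1 t htU)
  have gc := fun (s : ℝ) => gs_cont hfc hB.b0 s
  have gc1 := fun (s : ℝ) => gs_cont hf1c hB.b1 s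
  have gc2 := fun (s : ℝ) => gs_cont hf2c hB.b2 s
  have key := hasDerivAt_integral_of_dominated_loc_of_deriv_le (μ := gaussianReal 0 1)
    (F := fun t y => Gs f (2 * e * t) (z + Real.sqrt (2 * e * (T - t)) * y)
      * h (z + Real.sqrt (2 * e * (T - t)) * y))
    (F' := fun t y =>
      (-(e / Real.sqrt (2 * e * (T - t))) * y * Gs f1 (2 * e * t) (z + Real.sqrt (2 * e * (T - t)) * y)
        + e * Gs f2 (2 * e * t) (z + Real.sqrt (2 * e * (T - t)) * y)) *
        h (z + Real.sqrt (2 * e * (T - t)) * y) +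
      Gs f (2 * e * t) (z + Real.sqrt (2 * e * (T - t)) * y) *
        (h1 (z + Real.sqrt (2 * e * (T - t)) * y) * (-(e / Real.sqrt (2 * e * (T - t))) * y))) (x₀ := t)
    (s := U) (bound := fun y => (A * |y| * C + e * C) * C + C * (C * (A * |y|))) (hU.mem_nhds htU)
    (Eventually.of_forall fun s => by
      have k := gc (2 * e * s)
      exact (by fun_prop : Continuous fun y =>
        Gs f (2 * e * s) (z + Real.sqrt (2 * e * (T - s)) * y)
        * h (z + Real.sqrt (2 * e * (T - s)) * y)).aestronglyMeasurable)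
    (by
      have k := gc (2 * e * t)
      refine Integrable.of_bound (by fun_prop : Continuous fun y =>
        Gs f (2 * e * t) (z + Real.sqrt (2 * e * (T - t)) * y)
        * h (z + Real.sqrt (2 * e * (T - t)) * y)).aestronglyMeasurable (C * C)
        (Eventually.of_forall fun y => ?_)
      rw [norm_mul]
      exact mul_le_mul (gs_bd hB.b0 _ _) (hH.b0 _) (abs_nonneg _) hC)
    (by
      have k := gc (2 * e * t)
      have k1 := gc1 (2 * e * t)
      have k2 := gc2 (2 * e * t)
      refine Continuous.aestronglyMeasurable ?_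
      fun_prop)
    (Eventually.of_forall fun y s hs => by
      refine (norm_add_le _ _).trans ?_
      rw [norm_mul, norm_mul, norm_mul]
      have a1 : ‖-(e / Real.sqrt (2 * e * (T - s))) * y‖ ≤ A * |y| := by
        rw [norm_mul, norm_neg]
        exact mul_le_mul_of_nonneg_right (hA1 s hs) (abs_nonneg _)
      refine add_le_add (mul_le_mul ?_ (hH.b0 _) (norm_nonneg _) (by positivity))
        (mul_le_mul (gs_bd hB.b0 _ _) (mul_le_mul (hH.b1 _) a1 (norm_nonneg _) hC) (by positivity) hC)
      refine (norm_add_le _ _).trans ?_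
      rw [norm_mul, norm_mul e]
      refine add_le_add (mul_le_mul a1 (gs_bd hB.b1 _ _) (norm_nonneg _) (by positivity)) ?_
      rw [Real.norm_eq_abs, abs_of_pos he]
      exact mul_le_mul_of_nonneg_left (gs_bd hB.b2 _ _) he.le)
    (by
      have j := (idint.norm)
      refine (((j.const_mul (A * C * C)).add (integrable_const (e * C * C))).add
        (j.const_mul (C * (C * A)))).congr (Eventually.of_forall fun y => ?_)
      simp only [Pi.add_apply, Real.norm_eq_abs]
      ring)
    (Eventually.of_forall fun y s hs => by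
      have k1 := path (T := T) (z := z) (y := y) hB he hU hs hUp hA1 hA2
      have k2 : HasDerivAt (fun t => h (z + Real.sqrt (2 * e * (T - t)) * y))
          (h1 (z + Real.sqrt (2 * e * (T - s)) * y) * (-(e / Real.sqrt (2 * e * (T - s))) * y)) s :=
        (hH.d1 _).comp s (((dα (T := T) he (hUp s hs).2).mul_const y).const_add z)
      exact k1.mul k2)
  refine key.2.congr_deriv ?_
  obtain ⟨α, hα⟩ : ∃ α, α = Real.sqrt (2 * e * (T - t)) := ⟨_, rfl⟩
  obtain ⟨s, hs⟩ : ∃ s, s = 2 * e * t := ⟨_, rfl⟩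
  have hα0 : 0 < α := by
    rw [hα]
    exact Real.sqrt_pos.2 (by positivity)
  simp only [← hα, ← hs]
  have k := gc s
  have k1 := gc1 s
  have k2 := gc2 s
  have hst := stein1 (fun y => Gs f1 s (z + α * y) * h (z + α * y) + Gs f s (z + α * y) * h1 (z + α * y))
    (fun y => (Gs f2 s (z + α * y) * α * h (z + α * y) + Gs f1 s (z + α * y) * (h1 (z + α * y) * α)) +
      (Gs f1 s (z + α * y) * α * h1 (z + α * y) + Gs f s (z + α * y) * (h2 (z + α * y) * α)))
    (2 * (C * C) + 4 * (C * C) * α)
    (fun y => by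
      have m : HasDerivAt (fun y => z + α * y) α y := by
        have := ((hasDerivAt_id y).const_mul α).const_add z
        rwa [mul_one] at this
      have m1 := (gs_dx hB.d2 hf2c hB.b1 hB.b2 s (z + α * y)).comp y m
      have m2 := (gs_dx hB.d1 hf1c hB.b0 hB.b1 s (z + α * y)).comp y m
      have m3 := (hH.d1 (z + α * y)).comp y m
      have m4 := (hH.d2 (z + α * y)).comp y m
      exact (m1.mul m3).add (m2.mul m4))
    (fun y => by
      refine (abs_add_le _ _).trans ?_
      rw [abs_mul, abs_mul]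
      have n1 := mul_le_mul (gs_bd hB.b1 s (z + α * y)) (hH.b0 (z + α * y)) (abs_nonneg _) hC
      have n2 := mul_le_mul (gs_bd hB.b0 s (z + α * y)) (hH.b1 (z + α * y)) (abs_nonneg _) hC
      have n3 : 0 ≤ 4 * (C * C) * α := by positivity
      linarith)
    (fun y => by
      have n1 := mul_le_mul (gs_bd hB.b2 s (z + α * y)) (hH.b0 (z + α * y)) (abs_nonneg _) hC
      have n2 := mul_le_mul (gs_bd hB.b1 s (z + α * y)) (hH.b1 (z + α * y)) (abs_nonneg _) hC
      have n3 := mul_le_mul (gs_bd hB.b0 s (z + α * y)) (hH.b2 (z + α * y)) (abs_nonneg _) hC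
      have n4 : 0 ≤ 2 * (C * C) := by positivity
      have e1 : (Gs f2 s (z + α * y) * α * h (z + α * y) + Gs f1 s (z + α * y) * (h1 (z + α * y) * α)) +
        (Gs f1 s (z + α * y) * α * h1 (z + α * y) + Gs f s (z + α * y) * (h2 (z + α * y) * α)) =
        (Gs f2 s (z + α * y) * h (z + α * y) + Gs f1 s (z + α * y) * h1 (z + α * y) +
        (Gs f1 s (z + α * y) * h1 (z + α * y)) + Gs f s (z + α * y) * h2 (z + α * y)) * α := by ring
      rw [e1, abs_mul, abs_of_pos hα0]
      have n5 : |Gs f2 s (z + α * y) * h (z + α * y) + Gs f1 s (z + α * y) * h1 (z + α * y) +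
        (Gs f1 s (z + α * y) * h1 (z + α * y)) + Gs f s (z + α * y) * h2 (z + α * y)| ≤ 4 * (C * C) := by
        refine (abs_add_le _ _).trans ?_
        refine (add_le_add ((abs_add_le _ _).trans (add_le_add (abs_add_le _ _) le_rfl)) le_rfl).trans ?_
        simp only [abs_mul]
        linarith
      have n6 := mul_le_mul_of_nonneg_right n5 hα0.le
      linarith)
    (by
      refine Continuous.measurable ?_
      fun_prop)
  -- integrabilities
  have bI : ∀ (p q : ℝ → ℝ), Continuous p → Continuous q → (∀ x, |p x| ≤ C) → (∀ x, |q x| ≤ C) →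
      Integrable (fun y => p (z + α * y) * q (z + α * y)) (gaussianReal 0 1) := by
    intro p q hp hq hpb hqb
    refine Integrable.of_bound (by fun_prop : Continuous fun y =>
      p (z + α * y) * q (z + α * y)).aestronglyMeasurable (C * C) (Eventually.of_forall fun y => ?_)
    rw [norm_mul]
    exact mul_le_mul (hpb _) (hqb _) (abs_nonneg _) hC
  have I20 := bI (fun x => Gs f2 s x) h k2 hhc (gs_bd hB.b2 s) hH.b0
  have I11 := bI (fun x => Gs f1 s x) h1 k1 hh1c (gs_bd hB.b1 s) hH.b1
  have I02 := bI (fun x => Gs f s x) h2 k hh2c (gs_bd hB.b0 s) hH.b2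
  have I10 := bI (fun x => Gs f1 s x) h k1 hhc (gs_bd hB.b1 s) hH.b0
  have I01 := bI (fun x => Gs f s x) h1 k hh1c (gs_bd hB.b0 s) hH.b1
  have IG : Integrable (fun y => y * (Gs f1 s (z + α * y) * h (z + α * y) +
      Gs f s (z + α * y) * h1 (z + α * y))) (gaussianReal 0 1) := by
    refine idint.mul_bdd (c := C * C + C * C) ?_ (Eventually.of_forall fun y => ?_)
    · refine Continuous.aestronglyMeasurable ?_
      fun_prop
    · refine (norm_add_le _ _).trans ?_
      rw [norm_mul, norm_mul]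
      exact add_le_add (mul_le_mul (gs_bd hB.b1 _ _) (hH.b0 _) (abs_nonneg _) hC)
        (mul_le_mul (gs_bd hB.b0 _ _) (hH.b1 _) (abs_nonneg _) hC)
  have E1 : ∫ y, ((-(e / α) * y * Gs f1 s (z + α * y) + e * Gs f2 s (z + α * y)) * h (z + α * y) +
      Gs f s (z + α * y) * (h1 (z + α * y) * (-(e / α) * y))) ∂(gaussianReal 0 1) =
      -(e / α) * ∫ y, y * (Gs f1 s (z + α * y) * h (z + α * y) +
      Gs f s (z + α * y) * h1 (z + α * y)) ∂(gaussianReal 0 1) +
      e * ∫ y, Gs f2 s (z + α * y) * h (z + α * y) ∂(gaussianReal 0 1) := by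
    rw [← integral_const_mul, ← integral_const_mul, ← integral_add (IG.const_mul _) (I20.const_mul _)]
    congr 1
    ext y
    ring
  have E2 : ∫ y, ((Gs f2 s (z + α * y) * α * h (z + α * y) + Gs f1 s (z + α * y) * (h1 (z + α * y) * α)) +
      (Gs f1 s (z + α * y) * α * h1 (z + α * y) + Gs f s (z + α * y) * (h2 (z + α * y) * α)))
        ∂(gaussianReal 0 1) =
      α * (∫ y, Gs f2 s (z + α * y) * h (z + α * y) ∂(gaussianReal 0 1)) +
      2 * α * (∫ y, Gs f1 s (z + α * y) * h1 (z + α * y) ∂(gaussianReal 0 1)) +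
      α * ∫ y, Gs f s (z + α * y) * h2 (z + α * y) ∂(gaussianReal 0 1) := by
    have J1 : Integrable (fun y => α * (Gs f2 s (z + α * y) * h (z + α * y)) +
        2 * α * (Gs f1 s (z + α * y) * h1 (z + α * y))) (gaussianReal 0 1) :=
      (I20.const_mul _).add (I11.const_mul _)
    rw [← integral_const_mul, ← integral_const_mul, ← integral_const_mul,
      ← integral_add (I20.const_mul _) (I11.const_mul _),
      ← integral_add J1 (I02.const_mul _)]
    congr 1
    ext y
    ring
  have E3 : ∫ y, (-(2 * e) * Gs f1 s (z + α * y) * h1 (z + α * y) - e * (Gs f s (z + α * y) *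
      h2 (z + α * y))) ∂(gaussianReal 0 1) =
      -(2 * e) * (∫ y, Gs f1 s (z + α * y) * h1 (z + α * y) ∂(gaussianReal 0 1)) -
      e * ∫ y, Gs f s (z + α * y) * h2 (z + α * y) ∂(gaussianReal 0 1) := by
    rw [← integral_const_mul, ← integral_const_mul,
      ← integral_sub (I11.const_mul _) (I02.const_mul _)]
    congr 1
    ext y
    ring
  rw [E1, E3, hst, E2]
  field_simp
  ring

end VV176
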