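import Mathlib
import Pool.Agent.Q176.VV.Stmts

set_option autoImplicit false

open MeasureTheory ProbabilityTheory Filter Topology Set

namespace VV176
namespace GibbsTask

theorem pdf_deriv (t : ℝ) :
    HasDerivAt (gaussianPDFReal 0 1) (-(t * gaussianPDFReal 0 1 t)) t := by
  have h : gaussianPDFReal 0 1 = fun x : ℝ =>
      (Real.sqrt (2 * Real.pi * ((1 : NNReal) : ℝ)))⁻¹ *
        Real.exp (-(x - 0) ^ 2 / (2 * ((1 : NNReal) : ℝ))) := by
    rw [gaussianPDFReal_def]
  rw [h]
  have h1 : HasDerivAt (fun x : ℝ => -(x - 0) ^ 2 / (2 * ((1 : NNReal) : ℝ))) (-t) t := by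
    have := (((hasDerivAt_id t).sub_const (0:ℝ)).pow 2).neg.div_const (2 * ((1 : NNReal) : ℝ))
    refine this.congr_deriv ?_
    simp only [id, sub_zero, NNReal.coe_one, mul_one]
    norm_num
    ring
  have h2 := (h1.exp).const_mul (Real.sqrt (2 * Real.pi * ((1 : NNReal) : ℝ)))⁻¹
  refine h2.congr_deriv ?_
  ring

theorem integrable_gauss_iff (f : ℝ → ℝ) (hf : Integrable f (gaussianReal 0 1)) :
    Integrable fun t => f t * gaussianPDFReal 0 1 t := by
  rw [gaussianReal_of_var_ne_zero 0 (by norm_num : (1 : NNReal) ≠ 0),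
    integrable_withDensity_iff_integrable_smul' (measurable_gaussianPDF 0 1)
      (Eventually.of_forall fun _ => gaussianPDF_lt_top)] at hf
  refine hf.congr (Eventually.of_forall fun t => ?_)
  simp only [smul_eq_mul, toReal_gaussianPDF]
  ring

theorem stein (g g' : ℝ → ℝ) (C : ℝ) (hd : ∀ t, HasDerivAt g (g' t) t) (hC : ∀ t, |g t| ≤ C)
    (hC' : ∀ t, |g' t| ≤ C) (hm' : Measurable g') :
    ∫ t, t * g t ∂(gaussianReal 0 1) = ∫ t, g' t ∂(gaussianReal 0 1) := by
  have hgm : Measurable g := by
    have : Continuous g := continuous_iff_continuousAt.2 fun t => (hd t).continuousAt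
    exact this.measurable
  have hid : Integrable (fun t : ℝ => t) (gaussianReal 0 1) :=
    (memLp_id_gaussianReal 1).integrable (by norm_num)
  have i1 : Integrable (fun t => t * g t) (gaussianReal 0 1) :=
    hid.mul_bdd (c := C) hgm.aestronglyMeasurable (Eventually.of_forall fun t => hC t)
  have i2 : Integrable g' (gaussianReal 0 1) :=
    Integrable.of_bound hm'.aestronglyMeasurable C (Eventually.of_forall fun t => hC' t)
  have i3 : Integrable g (gaussianReal 0 1) :=
    Integrable.of_bound hgm.aestronglyMeasurable C (Eventually.of_forall fun t => hC t)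
  have j1 := integrable_gauss_iff _ i1
  have j2 := integrable_gauss_iff _ i2
  have j3 := integrable_gauss_iff _ i3
  have key := integral_mul_deriv_eq_deriv_mul_of_integrable (u := g) (u' := g')
    (v := gaussianPDFReal 0 1) (v' := fun t => -(t * gaussianPDFReal 0 1 t))
    (fun x _ => hd x) (fun x _ => pdf_deriv x)
    (j1.neg.congr (Eventually.of_forall fun t => by simp only [Pi.neg_apply, Pi.mul_apply]; ring))
    (j2.congr (Eventually.of_forall fun t => by simp only [Pi.mul_apply]))
    (j3.congr (Eventually.of_forall fun t => by simp only [Pi.mul_apply]))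
  rw [integral_gaussianReal_eq_integral_smul (by norm_num),
    integral_gaussianReal_eq_integral_smul (by norm_num)]
  have e1 : ∫ x, gaussianPDFReal 0 1 x • (x * g x) =
      -∫ x, g x * -(x * gaussianPDFReal 0 1 x) := by
    rw [← integral_neg]
    refine integral_congr_ae (Eventually.of_forall fun x => ?_)
    simp only [smul_eq_mul]; ring
  rw [e1, key, neg_neg]
  refine integral_congr_ae (Eventually.of_forall fun x => ?_)
  simp only [smul_eq_mul]; ring

theorem scale (F : ℝ → ℝ) (v : ℝ) (hv : 0 < v) :
    ∫ y, F (Real.sqrt v * y) ∂(gaussianReal 0 1)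
      = (Real.sqrt (2 * Real.pi * v))⁻¹ * ∫ y, F y * Real.exp (-(y ^ 2) / (2 * v)) := by
  rw [integral_gaussianReal_eq_integral_smul (by norm_num)]
  have hs : 0 < Real.sqrt v := Real.sqrt_pos.2 hv
  have h1 : (fun x => gaussianPDFReal 0 1 x • F (Real.sqrt v * x)) =
      fun x => (fun z => (Real.sqrt (2 * Real.pi))⁻¹ * (F z * Real.exp (-(z ^ 2) / (2 * v))))
        (Real.sqrt v * x) := by
    funext x
    simp only [gaussianPDFReal_def, smul_eq_mul, NNReal.coe_one, mul_one, sub_zero]
    have : -(Real.sqrt v * x) ^ 2 / (2 * v) = - x ^ 2 / 2 := by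
      rw [mul_pow, Real.sq_sqrt hv.le]
      field_simp
    rw [this]
    ring
  rw [h1, Measure.integral_comp_mul_left
    (fun z => (Real.sqrt (2 * Real.pi))⁻¹ * (F z * Real.exp (-(z ^ 2) / (2 * v)))) (Real.sqrt v),
    integral_const_mul, Real.sqrt_mul (x := 2 * Real.pi) (by positivity) v, abs_of_pos (inv_pos.2 hs), smul_eq_mul,
    mul_inv]
  ring

end GibbsTask

open GibbsTask in
theorem taskGibbs : TaskGibbs := by
  intro f f1 C v hd hc hC hC1 hv
  have hs : 0 < Real.sqrt v := Real.sqrt_pos.2 hv
  have hC0 : 0 ≤ C := le_trans (abs_nonneg _) (hC 0)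
  constructor
  · unfold Gs
    simp only [zero_add]
    exact scale f v hv
  · unfold Gs
    simp only [zero_add]
    have h1 := stein (fun t => f (Real.sqrt v * t)) (fun t => Real.sqrt v * f1 (Real.sqrt v * t))
      (C + Real.sqrt v * C)
      (fun t => by
        have := (hd (Real.sqrt v * t)).comp t ((hasDerivAt_id t).const_mul (Real.sqrt v))
        refine this.congr_deriv ?_
        ring)
      (fun t => (hC _).trans (by have := mul_nonneg hs.le hC0; linarith))
      (fun t => by
        rw [abs_mul, abs_of_pos hs]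
        have := mul_le_mul_of_nonneg_left (hC1 (Real.sqrt v * t)) hs.le
        linarith)
      ((hc.comp (continuous_const.mul continuous_id)).measurable.const_mul _)
    rw [integral_const_mul] at h1
    have h2 := scale (fun y => y * f y) v hv
    have h3 : ∫ y, (Real.sqrt v * y) * f (Real.sqrt v * y) ∂(gaussianReal 0 1)
        = Real.sqrt v * ∫ t, t * f (Real.sqrt v * t) ∂(gaussianReal 0 1) := by
      rw [← integral_const_mul]
      refine integral_congr_ae (Eventually.of_forall fun x => ?_)
      simp only
      ring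
    rw [h3, h1] at h2
    have h4 : ∫ y, y * (f y * Real.exp (-(y ^ 2) / (2 * v)))
        = ∫ y, y * f y * Real.exp (-(y ^ 2) / (2 * v)) := by
      refine integral_congr_ae (Eventually.of_forall fun x => ?_)
      simp only
      ring
    rw [h4, ← h2, ← mul_assoc, ← mul_assoc]
    have h5 : v⁻¹ * Real.sqrt v * Real.sqrt v = 1 := by
      rw [mul_assoc, Real.mul_self_sqrt hv.le]
      field_simp
    rw [h5, one_mul]

end VV176
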