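import Pool.Agent.Q176.VV.Stmts

open MeasureTheory ProbabilityTheory Filter Topology Set

namespace VV176

theorem taskHC : TaskHC := by
  intro f C hf hC
  unfold Gs
  refine MeasureTheory.continuous_of_dominated (bound := fun _ => C) ?_ ?_ ?_ ?_
  · intro p
    exact (Continuous.aestronglyMeasurable (by fun_prop))
  · intro p
    refine Eventually.of_forall fun y => ?_
    rw [Real.norm_eq_abs]
    exact hC _
  · exact integrable_const C
  · refine Eventually.of_forall fun y => ?_
    have : Continuous fun p : ℝ × ℝ => p.2 + Real.sqrt p.1 * y :=
      continuous_snd.add ((Real.continuous_sqrt.comp continuous_fst).mul continuous_const)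
    exact hf.comp this

end VV176
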