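import Pool.Agent.Q176.VV.Stmts
import Pool.Agent.Q176.VV.Stein

open MeasureTheory ProbabilityTheory Filter Topology Set

namespace VV176

theorem taskHT : TaskHT := by
  intro f f1 f2 C s x hf hs
  have hC0 : 0 ≤ C := (abs_nonneg _).trans (hf.b0 0)
  have hfc : Continuous f := continuous_iff_continuousAt.2 fun t => (hf.d1 t).continuousAt
  have hf1c : Continuous f1 := continuous_iff_continuousAt.2 fun t => (hf.d2 t).continuousAt
  have hsq : 0 < Real.sqrt s := Real.sqrt_pos.2 hs
  have hid : Integrable (fun t : ℝ => t) (gaussianReal 0 1) :=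
    (memLp_id_gaussianReal 1).integrable (by norm_num)
  -- differentiation under the integral
  have key := hasDerivAt_integral_of_dominated_loc_of_deriv_le (μ := gaussianReal 0 1) (𝕜 := ℝ)
    (F := fun (s : ℝ) (y : ℝ) => f (x + Real.sqrt s * y))
    (F' := fun (s : ℝ) (y : ℝ) => f1 (x + Real.sqrt s * y) * (1 / (2 * Real.sqrt s) * y))
    (x₀ := s) (s := Ioi (s / 2)) (bound := fun y => C * (1 / (2 * Real.sqrt (s / 2)) * |y|))
    (Ioi_mem_nhds (by linarith))
    (Eventually.of_forall fun t => (hfc.comp (by fun_prop)).aestronglyMeasurable)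
    (Integrable.of_bound (hfc.comp (by fun_prop)).aestronglyMeasurable C
      (Eventually.of_forall fun t => hf.b0 _))
    ((hf1c.comp (by fun_prop)).mul (by fun_prop)).aestronglyMeasurable
    (Eventually.of_forall fun y t ht => by
      have ht' : s / 2 < t := ht
      have h0 : 0 < Real.sqrt (s / 2) := Real.sqrt_pos.2 (by linarith)
      have h1 : Real.sqrt (s / 2) ≤ Real.sqrt t := Real.sqrt_le_sqrt ht'.le
      rw [norm_mul, norm_mul, Real.norm_eq_abs, Real.norm_eq_abs, Real.norm_eq_abs]
      have h2 : |1 / (2 * Real.sqrt t)| ≤ 1 / (2 * Real.sqrt (s / 2)) := by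
        have h3 : 0 < Real.sqrt t := h0.trans_le h1
        rw [abs_of_pos (by positivity)]
        gcongr
      gcongr
      exact hf.b1 _)
    ((hid.norm.const_mul _).const_mul _)
    (Eventually.of_forall fun y t ht => by
      have ht' : s / 2 < t := ht
      have h0 : t ≠ 0 := by linarith
      have h1 : HasDerivAt (fun t => x + Real.sqrt t * y) (1 / (2 * Real.sqrt t) * y) t := by
        have := ((Real.hasDerivAt_sqrt h0).mul_const y).const_add x
        exact this
      exact (hf.d1 _).comp t h1)
  have h1 := key.2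
  have h2 : ∫ y, f1 (x + Real.sqrt s * y) * (1 / (2 * Real.sqrt s) * y) ∂(gaussianReal 0 1) =
      Gs f2 s x / 2 := by
    have h3 := VV176.SteinCopy.stein1 (fun y => f1 (x + Real.sqrt s * y))
      (fun y => f2 (x + Real.sqrt s * y) * Real.sqrt s) (max C (C * Real.sqrt s)) (fun y => by
        have h4 : HasDerivAt (fun y => x + Real.sqrt s * y) (Real.sqrt s) y := by
          simpa using ((hasDerivAt_id y).const_mul (Real.sqrt s)).const_add x
        exact (hf.d2 _).comp y h4) (fun y => (hf.b1 _).trans (le_max_left _ _)) (fun y => by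
        rw [abs_mul, abs_of_pos hsq]
        exact (mul_le_mul_of_nonneg_right (hf.b2 _) hsq.le).trans (le_max_right _ _))
        ((hf.c2.comp (by fun_prop)).mul continuous_const).measurable
    have h5 : ∫ y, f1 (x + Real.sqrt s * y) * (1 / (2 * Real.sqrt s) * y) ∂(gaussianReal 0 1) =
        1 / (2 * Real.sqrt s) * ∫ y, y * f1 (x + Real.sqrt s * y) ∂(gaussianReal 0 1) := by
      rw [← integral_const_mul]
      refine integral_congr_ae (Eventually.of_forall fun y => ?_)
      simp only
      ring
    rw [h5, h3, integral_mul_const, Gs]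
    field_simp
  rw [h2] at h1
  exact h1

end VV176
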