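import Pool.Agent.Q176.VV.Stmts

/-! Differentiation of the Gaussian mean in the centre. -/

open MeasureTheory ProbabilityTheory Filter Topology Set

namespace VV176

theorem taskHX : TaskHX := by
  intro f f1 C s x hd hc hb hb1
  have hfc : Continuous f := continuous_iff_continuousAt.2 fun x => (hd x).continuousAt
  have h := hasDerivAt_integral_of_dominated_loc_of_deriv_le (μ := gaussianReal 0 1) (s := univ)
    (F := fun x y => f (x + Real.sqrt s * y)) (F' := fun x y => f1 (x + Real.sqrt s * y)) (x₀ := x)
    (bound := fun _ => C) univ_mem
    (Eventually.of_forall fun x =>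
      (hfc.comp (by fun_prop : Continuous fun y => x + Real.sqrt s * y)).aestronglyMeasurable)
    (Integrable.of_bound
      (hfc.comp (by fun_prop : Continuous fun y => x + Real.sqrt s * y)).aestronglyMeasurable C
      (ae_of_all _ fun y => hb _))
    (hc.comp (by fun_prop : Continuous fun y => x + Real.sqrt s * y)).aestronglyMeasurable
    (ae_of_all _ fun y z _ => hb1 _)
    (integrable_const _)
    (ae_of_all _ fun y z _ => by
      have h1 : HasDerivAt (fun z => z + Real.sqrt s * y) 1 z := (hasDerivAt_id z).add_const _
      have h2 := (hd (z + Real.sqrt s * y)).comp z h1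
      rw [mul_one] at h2
      exact h2)
  exact h.2

end VV176
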