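import Pool.Agent.Q176.VV.Stmts

open MeasureTheory ProbabilityTheory Filter Topology Set

namespace VV176

theorem intJ (c : ℝ) (hc : 0 < c) : Integrable fun x : ℝ => Real.exp (-(c * x ^ 4) / 2) := by
  have h1 : Integrable fun x : ℝ => Real.exp (c / 2) * Real.exp (-c * x ^ 2) :=
    (integrable_exp_neg_mul_sq hc).const_mul _
  refine h1.mono' (by fun_prop) (Eventually.of_forall fun x => ?_)
  rw [Real.norm_eq_abs, abs_of_pos (Real.exp_pos _), ← Real.exp_add]
  apply Real.exp_le_exp.2
  nlinarith [mul_nonneg hc.le (sq_nonneg (x ^ 2 - 1))]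

theorem taskJ : TaskJ := by
  intro c c' hc hcc
  have hc' : 0 < c' := hc.trans hcc
  refine ⟨integral_exp_pos (intJ c' hc'), ?_⟩
  have hle : ∀ x : ℝ, Real.exp (-(c' * x ^ 4) / 2) ≤ Real.exp (-(c * x ^ 4) / 2) := by
    intro x
    apply Real.exp_le_exp.2
    have : 0 ≤ (c' - c) * x ^ 4 := mul_nonneg (by linarith) (by positivity)
    linarith
  have hint := (intJ c hc).sub (intJ c' hc')
  have hpos : 0 < ∫ x : ℝ, (Real.exp (-(c * x ^ 4) / 2) - Real.exp (-(c' * x ^ 4) / 2)) := by
    rw [integral_pos_iff_support_of_nonneg (fun x => sub_nonneg.2 (hle x)) hint]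
    have hsub : Ioi (0 : ℝ) ⊆ Function.support fun x : ℝ =>
        (Real.exp (-(c * x ^ 4) / 2) - Real.exp (-(c' * x ^ 4) / 2)) := by
      intro x hx
      have hx' : 0 < x := hx
      rw [Function.mem_support]
      have : Real.exp (-(c' * x ^ 4) / 2) < Real.exp (-(c * x ^ 4) / 2) := by
        apply Real.exp_lt_exp.2
        have : 0 < (c' - c) * x ^ 4 := mul_pos (by linarith) (by positivity)
        linarith
      exact (sub_pos.2 this).ne'
    refine lt_of_lt_of_le ?_ (measure_mono hsub)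
    simp
  rw [integral_sub (intJ c hc) (intJ c' hc')] at hpos
  exact sub_pos.1 hpos

end VV176
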