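import Pool.Agent.Q176.VV.Stmts

/-! `kk` is twice continuously differentiable. -/

open Filter Topology Set

namespace VV176

noncomputable section

theorem kk_hasDerivAt_aux (N N' : ℝ → ℝ) (C : ℝ) (hN : ∀ x, HasDerivAt N (N' x) x)
    (hC : ∀ x, |N x| ≤ C) (n : ℕ) (hn : 1 ≤ n) (S : ℝ) :
    HasDerivAt (fun S : ℝ => S ^ (n + 1) * N (Real.log (S ^ 2)))
      (S ^ n * (((n : ℝ) + 1) * N (Real.log (S ^ 2)) + 2 * N' (Real.log (S ^ 2)))) S := by
  rcases eq_or_ne S 0 with rfl | hS
  · rw [zero_pow (by omega : n ≠ 0), zero_mul, hasDerivAt_iff_tendsto_slope_zero]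
    have h1 : Tendsto (fun t : ℝ => |t| ^ n * C) (𝓝[≠] 0) (𝓝 0) := by
      have h2 : Continuous (fun t : ℝ => |t| ^ n * C) := by fun_prop
      have h3 := h2.tendsto 0
      simp only [abs_zero, zero_pow (by omega : n ≠ 0), zero_mul] at h3
      exact h3.mono_left nhdsWithin_le_nhds
    refine squeeze_zero_norm' ?_ h1
    filter_upwards [self_mem_nhdsWithin] with t ht
    have ht' : t ≠ 0 := ht
    have h4 : t⁻¹ • ((0 + t) ^ (n + 1) * N (Real.log ((0 + t) ^ 2)) -
        0 ^ (n + 1) * N (Real.log (0 ^ 2))) = t ^ n * N (Real.log (t ^ 2)) := by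
      rw [zero_add, zero_pow (by omega : n + 1 ≠ 0), zero_mul, sub_zero, smul_eq_mul, pow_succ]
      field_simp
    rw [h4, norm_mul, norm_pow, Real.norm_eq_abs, Real.norm_eq_abs]
    exact mul_le_mul_of_nonneg_left (hC _) (by positivity)
  · have h1 : HasDerivAt (fun S : ℝ => Real.log (S ^ 2)) ((2 * S) / S ^ 2) S := by
      have h2 : HasDerivAt (fun S : ℝ => S ^ 2) (2 * S) S := by
        simpa using hasDerivAt_pow 2 S
      exact h2.log (pow_ne_zero 2 hS)
    have h3 : HasDerivAt (fun S : ℝ => N (Real.log (S ^ 2)))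
        (N' (Real.log (S ^ 2)) * ((2 * S) / S ^ 2)) S := (hN _).comp S h1
    have h4 : HasDerivAt (fun S : ℝ => S ^ (n + 1)) (((n + 1 : ℕ) : ℝ) * S ^ n) S := by
      simpa using hasDerivAt_pow (n + 1) S
    have h5 := h4.mul h3
    refine h5.congr_deriv ?_
    push_cast
    rw [pow_succ]
    field_simp
    ring

/-- first derivative of `M` -/
def M1 (l : ℝ) : ℝ := Real.cos (Real.log (1 + l ^ 2)) * (2 * l / (1 + l ^ 2))

/-- second derivative of `M` -/
def M2 (l : ℝ) : ℝ := -Real.sin (Real.log (1 + l ^ 2)) * (2 * l / (1 + l ^ 2)) * (2 * l / (1 + l ^ 2)) +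
  Real.cos (Real.log (1 + l ^ 2)) * ((2 * (1 + l ^ 2) - 2 * l * (2 * l)) / (1 + l ^ 2) ^ 2)

theorem M_inner (l : ℝ) : HasDerivAt (fun l : ℝ => Real.log (1 + l ^ 2)) (2 * l / (1 + l ^ 2)) l := by
  have h2 : HasDerivAt (fun l : ℝ => 1 + l ^ 2) (2 * l) l := by
    simpa using (hasDerivAt_pow 2 l).const_add 1
  exact h2.log (by positivity)

theorem M_deriv (l : ℝ) : HasDerivAt M (M1 l) l := by
  have h := ((Real.hasDerivAt_sin _).comp l (M_inner l)).const_add 2
  exact h

theorem M1_deriv (l : ℝ) : HasDerivAt M1 (M2 l) l := by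
  have h1 := (Real.hasDerivAt_cos _).comp l (M_inner l)
  have h2 : HasDerivAt (fun l : ℝ => 1 + l ^ 2) (2 * l) l := by
    simpa using (hasDerivAt_pow 2 l).const_add 1
  have h3 : HasDerivAt (fun l : ℝ => 2 * l) 2 l := by
    simpa using (hasDerivAt_id l).const_mul 2
  have h4 := h3.div h2 (by positivity)
  exact h1.mul h4

theorem ratio_le (l : ℝ) : |2 * l / (1 + l ^ 2)| ≤ 1 := by
  rw [abs_div, abs_of_pos (by positivity : (0 : ℝ) < 1 + l ^ 2), div_le_one (by positivity), abs_le]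
  constructor <;> nlinarith [sq_nonneg (l - 1), sq_nonneg (l + 1)]

theorem M_bdd (l : ℝ) : |M l| ≤ 3 := by
  unfold M
  have h1 := Real.neg_one_le_sin (Real.log (1 + l ^ 2))
  have h2 := Real.sin_le_one (Real.log (1 + l ^ 2))
  rw [abs_le]; constructor <;> linarith

theorem M1_bdd (l : ℝ) : |M1 l| ≤ 1 := by
  unfold M1
  rw [abs_mul]
  exact mul_le_one₀ (Real.abs_cos_le_one _) (abs_nonneg _) (ratio_le l)

theorem M2_bdd (l : ℝ) : |M2 l| ≤ 3 := by
  unfold M2
  have h1 : |-Real.sin (Real.log (1 + l ^ 2)) * (2 * l / (1 + l ^ 2)) * (2 * l / (1 + l ^ 2))| ≤ 1 := by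
    rw [abs_mul, abs_mul, abs_neg]
    exact mul_le_one₀ (mul_le_one₀ (Real.abs_sin_le_one _) (abs_nonneg _) (ratio_le l))
      (abs_nonneg _) (ratio_le l)
  have h2 : |Real.cos (Real.log (1 + l ^ 2)) *
      ((2 * (1 + l ^ 2) - 2 * l * (2 * l)) / (1 + l ^ 2) ^ 2)| ≤ 2 := by
    have h3 : |(2 * (1 + l ^ 2) - 2 * l * (2 * l)) / (1 + l ^ 2) ^ 2| ≤ 2 := by
      rw [abs_div, abs_of_pos (by positivity : (0 : ℝ) < (1 + l ^ 2) ^ 2),
        div_le_iff₀ (by positivity), abs_le]
      constructor <;> nlinarith [sq_nonneg l, sq_nonneg (l ^ 2)]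
    rw [abs_mul]
    calc _ ≤ 1 * |(2 * (1 + l ^ 2) - 2 * l * (2 * l)) / (1 + l ^ 2) ^ 2| :=
          mul_le_mul_of_nonneg_right (Real.abs_cos_le_one _) (abs_nonneg _)
      _ ≤ 2 := by rw [one_mul]; exact h3
  exact (abs_add_le _ _).trans (by linarith)

theorem M1_cont : Continuous M1 := continuous_iff_continuousAt.mpr fun l => (M1_deriv l).continuousAt

theorem M_cont : Continuous M := continuous_iff_continuousAt.mpr fun l => (M_deriv l).continuousAt

theorem M2_cont : Continuous M2 := by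
  unfold M2
  have h0 : Continuous (fun l : ℝ => Real.log (1 + l ^ 2)) :=
    continuous_iff_continuousAt.mpr fun l => (M_inner l).continuousAt
  have h1 : Continuous (fun l : ℝ => 2 * l / (1 + l ^ 2)) :=
    Continuous.div (by fun_prop) (by fun_prop) (fun l => by positivity)
  have h2 : Continuous (fun l : ℝ => (2 * (1 + l ^ 2) - 2 * l * (2 * l)) / (1 + l ^ 2) ^ 2) :=
    Continuous.div (by fun_prop) (by fun_prop) (fun l => by positivity)
  exact (((Real.continuous_sin.comp h0).neg.mul h1).mul h1).add ((Real.continuous_cos.comp h0).mul h2)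

/-- continuity of `S ^ n N (log S ^ 2)` for bounded continuous `N` and `n ≥ 1` -/
theorem kk_cont_aux (N : ℝ → ℝ) (C : ℝ) (hN : Continuous N) (hC : ∀ x, |N x| ≤ C) (n : ℕ)
    (hn : 1 ≤ n) : Continuous (fun S : ℝ => S ^ n * N (Real.log (S ^ 2))) := by
  rw [continuous_iff_continuousAt]
  intro S
  rcases eq_or_ne S 0 with rfl | hS
  · have h1 : Tendsto (fun t : ℝ => |t| ^ n * C) (𝓝 0) (𝓝 0) := by
      have h2 : Continuous (fun t : ℝ => |t| ^ n * C) := by fun_prop
      have h3 := h2.tendsto 0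
      simpa only [abs_zero, zero_pow (by omega : n ≠ 0), zero_mul] using h3
    unfold ContinuousAt
    simp only [zero_pow (by omega : n ≠ 0), zero_mul]
    refine squeeze_zero_norm (fun t => ?_) h1
    rw [norm_mul, norm_pow, Real.norm_eq_abs, Real.norm_eq_abs]
    exact mul_le_mul_of_nonneg_left (hC _) (by positivity)
  · have h1 : ContinuousAt (fun S : ℝ => Real.log (S ^ 2)) S :=
      (continuousAt_id.pow 2).log (pow_ne_zero 2 hS)
    exact (continuousAt_id.pow n).mul (hN.continuousAt.comp h1)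

/-- the first derivative of `kk` -/
def kk1 (S : ℝ) : ℝ := S ^ 3 * (4 * M (Real.log (S ^ 2)) + 2 * M1 (Real.log (S ^ 2)))

/-- the second derivative of `kk` -/
def kk2 (S : ℝ) : ℝ := S ^ 2 * (3 * (4 * M (Real.log (S ^ 2)) + 2 * M1 (Real.log (S ^ 2))) +
  2 * (4 * M1 (Real.log (S ^ 2)) + 2 * M2 (Real.log (S ^ 2))))

theorem kk_deriv (S : ℝ) : HasDerivAt kk (kk1 S) S := by
  have h : HasDerivAt kk _ S := kk_hasDerivAt_aux M M1 3 M_deriv M_bdd 3 (by norm_num) S
  refine h.congr_deriv ?_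
  unfold kk1
  push_cast
  ring

theorem kk1_deriv (S : ℝ) : HasDerivAt kk1 (kk2 S) S := by
  have h : HasDerivAt kk1 _ S := kk_hasDerivAt_aux (fun l => 4 * M l + 2 * M1 l)
    (fun l => 4 * M1 l + 2 * M2 l) 14
    (fun l => ((M_deriv l).const_mul 4).add ((M1_deriv l).const_mul 2))
    (fun l => by
      have h1 := abs_le.mp (M_bdd l)
      have h2 := abs_le.mp (M1_bdd l)
      rw [abs_le]; constructor <;> linarith [h1.1, h1.2, h2.1, h2.2]) 2 (by norm_num) S
  refine h.congr_deriv ?_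
  unfold kk2
  push_cast
  ring

theorem kk2_cont : Continuous kk2 := by
  have h := kk_cont_aux (fun l => 3 * (4 * M l + 2 * M1 l) + 2 * (4 * M1 l + 2 * M2 l)) 70
    (by
      have h1 := M_cont
      have h2 := M1_cont
      have h3 := M2_cont
      fun_prop)
    (fun l => by
      have h1 := abs_le.mp (M_bdd l)
      have h2 := abs_le.mp (M1_bdd l)
      have h3 := abs_le.mp (M2_bdd l)
      rw [abs_le]; constructor <;> linarith [h1.1, h1.2, h2.1, h2.2, h3.1, h3.2]) 2 (by norm_num)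
  exact h

theorem taskKK : TaskKK := by
  have e1 : deriv kk = kk1 := funext fun S => (kk_deriv S).deriv
  have e2 : deriv kk1 = kk2 := funext fun S => (kk1_deriv S).deriv
  have c1 : ContDiff ℝ 1 kk1 := by
    rw [contDiff_one_iff_deriv]
    refine ⟨fun S => (kk1_deriv S).differentiableAt, ?_⟩
    rw [e2]
    exact kk2_cont
  show ContDiff ℝ 2 kk
  have : ContDiff ℝ (1 + 1) kk := by
    rw [contDiff_succ_iff_deriv]
    refine ⟨fun S => (kk_deriv S).differentiableAt, by simp, ?_⟩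
    rw [e1]
    exact c1
  simpa [one_add_one_eq_two] using this

end

end VV176
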