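import Pool.Agent.Q176.VV.Stmts

open MeasureTheory ProbabilityTheory Filter Topology Set

namespace VV176

theorem taskLap : TaskLap := by
  intro F c κ a b r hF hc hκ hr hr0 hlim hlow
  have key : ∀ k, (r k)⁻¹ * ∫ s in Ioi (-(1/4:ℝ)), (a + b * s) * Real.exp (-(F s) / (2 * (r k) ^ 4)) =
      ∫ x, (Ioi (-(1/4) / r k)).indicator (fun x => (a + b * (r k * x)) *
        Real.exp (-(F (r k * x)) / (2 * (r k) ^ 4))) x := by
    intro k
    have h1 := integral_comp_mul_left_Ioi
      (fun s => (a + b * s) * Real.exp (-(F s) / (2 * (r k) ^ 4))) (-(1/4) / r k) (hr k)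
    have h2 : r k * (-(1/4) / r k) = -(1/4) := by
      have := (hr k).ne'
      field_simp
    rw [h2] at h1
    rw [integral_indicator measurableSet_Ioi, h1, smul_eq_mul]
  have hJ : a * J c = ∫ x : ℝ, a * Real.exp (-(c * x ^ 4) / 2) := by
    unfold J
    rw [integral_const_mul]
  rw [hJ]
  simp only [key]
  refine tendsto_integral_filter_of_dominated_convergence
    (fun x => (|a| + |b| * |x|) * (Real.exp (κ / 2) * Real.exp (-(κ / 2) * x ^ 2))) ?_ ?_ ?_ ?_
  · refine Eventually.of_forall fun k => ?_
    refine (Continuous.aestronglyMeasurable ?_).indicator measurableSet_Ioi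
    fun_prop
  · have h1 : ∀ᶠ k in atTop, r k < 1 := hr0.eventually (gt_mem_nhds one_pos)
    filter_upwards [h1] with k hk
    refine Eventually.of_forall fun x => ?_
    by_cases hx : x ∈ Ioi (-(1/4) / r k)
    · rw [indicator_of_mem hx, norm_mul, Real.norm_eq_abs, Real.norm_eq_abs, Real.abs_exp]
      refine mul_le_mul ?_ ?_ (Real.exp_pos _).le (by positivity)
      · refine (abs_add_le _ _).trans ?_
        rw [abs_mul, abs_mul, abs_of_pos (hr k)]
        have h2 : r k * |x| ≤ |x| := by nlinarith [abs_nonneg x, hr k]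
        have h3 := mul_le_mul_of_nonneg_left h2 (abs_nonneg b)
        linarith
      · rw [← Real.exp_add, Real.exp_le_exp]
        have hs : -(1/4) ≤ r k * x := by
          have h3 : -(1/4) / r k < x := hx
          rw [div_lt_iff₀ (hr k)] at h3
          linarith
        have h4 := hlow _ hs
        have hr4 : 0 < (r k) ^ 4 := pow_pos (hr k) 4
        have h5 : κ * (r k * x) ^ 4 / (1 + (r k * x) ^ 2) ≥ (r k) ^ 4 * (κ * (x ^ 2 - 1)) := by
          rw [ge_iff_le, le_div_iff₀ (by positivity)]
          have h6 : (r k) ^ 2 ≤ 1 := by nlinarith [hr k]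
          have h7 : (x ^ 2 - 1) * (1 + (r k * x) ^ 2) ≤ x ^ 4 := by
            nlinarith [mul_nonneg (sub_nonneg.2 h6) (sq_nonneg (x ^ 2)), sq_nonneg (r k * x), sq_nonneg x,
              mul_nonneg (sub_nonneg.2 h6) (sq_nonneg x)]
          have h8 := mul_le_mul_of_nonneg_left h7 (mul_pos hκ hr4).le
          nlinarith [h8]
        have h9 : (r k) ^ 4 * (κ * (x ^ 2 - 1)) ≤ F (r k * x) := h5.trans h4
        rw [div_le_iff₀ (by positivity)]
        nlinarith [h9]
    · rw [indicator_of_notMem hx, norm_zero]
      positivity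
  · have h1 := (integrable_exp_neg_mul_sq (half_pos hκ)).const_mul (|a| * Real.exp (κ / 2))
    have h2 := ((integrable_mul_exp_neg_mul_sq (half_pos hκ)).norm).const_mul (|b| * Real.exp (κ / 2))
    refine (h1.add h2).congr (Eventually.of_forall fun x => ?_)
    simp only [Pi.add_apply, norm_mul, Real.norm_eq_abs, Real.abs_exp]
    ring
  · have h0 : ∀ᵐ x : ℝ, x ≠ 0 := by
      rw [ae_iff]
      simp
    filter_upwards [h0] with x hx
    have h1 : ∀ᶠ k in atTop, x ∈ Ioi (-(1/4) / r k) := by
      have h2 : Tendsto (fun k => r k * x) atTop (𝓝 (0 * x)) := hr0.mul_const x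
      rw [zero_mul] at h2
      have h3 : ∀ᶠ k in atTop, -(1/4) < r k * x := h2.eventually (lt_mem_nhds (by norm_num))
      filter_upwards [h3] with k hk
      change -(1/4) / r k < x
      rw [div_lt_iff₀ (hr k)]
      linarith
    have h4 : Tendsto (fun k => (a + b * (r k * x)) * Real.exp (-(F (r k * x)) / (2 * (r k) ^ 4))) atTop
        (𝓝 (a * Real.exp (-(c * x ^ 4) / 2))) := by
      have h5 : Tendsto (fun k => a + b * (r k * x)) atTop (𝓝 (a + b * (0 * x))) :=
        (((hr0.mul_const x).const_mul b).const_add a)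
      rw [zero_mul, mul_zero, add_zero] at h5
      refine h5.mul (Real.continuous_exp.continuousAt.tendsto.comp ?_)
      have h6 := ((hlim x hx).neg).div_const 2
      refine h6.congr fun k => ?_
      have := (hr k).ne'
      field_simp
    refine h4.congr' ?_
    filter_upwards [h1] with k hk
    rw [indicator_of_mem hk]

end VV176
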