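import Pool.Agent.Q176.VV.Stmts

open MeasureTheory ProbabilityTheory Filter Topology Set

namespace VV176

theorem taskPP_deriv (a : ℝ) :
    HasDerivAt PP ((1 - Real.cos a) ^ 2 * (2 + Real.cos a)) a := by
  have h1 := (((hasDerivAt_id a).const_mul 2).sub ((Real.hasDerivAt_sin a).const_mul 2)).sub
    (((Real.hasDerivAt_sin a).pow 3).div_const 3)
  have h2 : (fun y : ℝ => 2 * id y) - (fun y => 2 * Real.sin y) - (fun y => (Real.sin ^ 3) y / 3) = PP := by
    funext y
    simp [PP]
  have h3 : HasDerivAt PP (2 * 1 - 2 * Real.cos a - ((3 : ℕ) : ℝ) * Real.sin a ^ (3 - 1) * Real.cos a / 3) a := by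
    rw [← h2]
    exact h1
  convert h3 using 1
  have h4 := Real.sin_sq a
  have h5 : (3 - 1 : ℕ) = 2 := rfl
  rw [h5, h4]
  push_cast
  ring

theorem taskPP : TaskPP := by
  intro a ha
  have h0 : PP 0 = 0 := by simp [PP]
  have hm : Monotone PP := by
    refine monotone_of_deriv_nonneg (fun x => (taskPP_deriv x).differentiableAt) fun x => ?_
    rw [(taskPP_deriv x).deriv]
    have := Real.neg_one_le_cos x
    exact mul_nonneg (sq_nonneg _) (by linarith)
  have hm2 : Monotone (fun x : ℝ => 3 / 20 * x ^ 5 - PP x) := by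
    have hd : ∀ x : ℝ, HasDerivAt (fun x : ℝ => 3 / 20 * x ^ 5 - PP x)
        (3 / 20 * (5 * x ^ 4) - (1 - Real.cos x) ^ 2 * (2 + Real.cos x)) x := by
      intro x
      have h1 := ((hasDerivAt_pow 5 x).const_mul (3 / 20 : ℝ)).sub (taskPP_deriv x)
      exact h1.congr_deriv (by norm_num)
    refine monotone_of_deriv_nonneg (fun x => (hd x).differentiableAt) fun x => ?_
    rw [(hd x).deriv]
    have h1 := Real.one_sub_sq_div_two_le_cos (x := x)
    have h2 := Real.cos_le_one x
    have h3 := Real.neg_one_le_cos x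
    have h4 : (1 - Real.cos x) ^ 2 ≤ (x ^ 2 / 2) ^ 2 := by
      apply pow_le_pow_left₀ <;> linarith
    have h5 : (1 - Real.cos x) ^ 2 * (2 + Real.cos x) ≤ (x ^ 2 / 2) ^ 2 * 3 :=
      mul_le_mul h4 (by linarith) (by linarith) (by positivity)
    nlinarith [h5]
  constructor
  · have := hm ha
    rw [h0] at this
    exact this
  · have := hm2 ha
    simp only [h0] at this
    norm_num at this
    linarith

end VV176
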