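import Pool.Agent.Q176.VV.Stmts

open MeasureTheory ProbabilityTheory Filter Topology Set

namespace VV176

theorem taskPer : TaskPer := by
  constructor
  · intro y
    have h1 : Real.cos (2 * Real.pi * (y + 1)) = Real.cos (2 * Real.pi * y) := by
      rw [show 2 * Real.pi * (y + 1) = 2 * Real.pi * y + 2 * Real.pi by ring, Real.cos_add_two_pi]
    have h2 : Real.sin (Real.pi * (y + 1 - 1/4)) = -Real.sin (Real.pi * (y - 1/4)) := by
      rw [show Real.pi * (y + 1 - 1/4) = Real.pi * (y - 1/4) + Real.pi by ring, Real.sin_add_pi]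
    have h3 : Real.sin (Real.pi * (y + 1 + 1/4)) = -Real.sin (Real.pi * (y + 1/4)) := by
      rw [show Real.pi * (y + 1 + 1/4) = Real.pi * (y + 1/4) + Real.pi by ring, Real.sin_add_pi]
    unfold g kk
    rw [h1, h2, h3]
    have e1 : (-Real.sin (Real.pi * (y - 1/4))) ^ 2 = Real.sin (Real.pi * (y - 1/4)) ^ 2 := by ring
    have e2 : (-Real.sin (Real.pi * (y - 1/4))) ^ 4 = Real.sin (Real.pi * (y - 1/4)) ^ 4 := by ring
    have e3 : (-Real.sin (Real.pi * (y + 1/4))) ^ 4 = Real.sin (Real.pi * (y + 1/4)) ^ 4 := by ring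
    rw [e1, e2, e3]
  · intro y
    have h : Real.sin (Real.pi * (y - 1/4)) * Real.sin (Real.pi * (y + 1/4)) =
        -(Real.cos (2 * Real.pi * y) / 2) := by
      rw [show Real.pi * (y - 1/4) = Real.pi * y - Real.pi / 4 by ring,
        show Real.pi * (y + 1/4) = Real.pi * y + Real.pi / 4 by ring, Real.sin_sub, Real.sin_add,
        Real.cos_pi_div_four, Real.sin_pi_div_four,
        show 2 * Real.pi * y = 2 * (Real.pi * y) by ring, Real.cos_two_mul]
      have h2 : (√2 : ℝ) ^ 2 = 2 := Real.sq_sqrt (by norm_num)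
      have h3 := Real.sin_sq_add_cos_sq (Real.pi * y)
      linear_combination (1/2) * h3 + (1/4) * (Real.sin (Real.pi * y) ^ 2 - Real.cos (Real.pi * y) ^ 2) * h2
    have h4 : 160 * (Real.sin (Real.pi * (y - 1/4)) ^ 4) * (Real.sin (Real.pi * (y + 1/4)) ^ 4) =
        10 * Real.cos (2 * Real.pi * y) ^ 4 := by
      calc 160 * (Real.sin (Real.pi * (y - 1/4)) ^ 4) * (Real.sin (Real.pi * (y + 1/4)) ^ 4)
          = 160 * (Real.sin (Real.pi * (y - 1/4)) * Real.sin (Real.pi * (y + 1/4))) ^ 4 := by ring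
        _ = _ := by rw [h]; ring
    unfold VV g kk
    linear_combination M (Real.log (Real.sin (Real.pi * (y - 1/4)) ^ 2)) * h4

end VV176
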