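import Pool.Agent.Q176.VV.Stmts

/-! # TaskSG (helper150) -/

open MeasureTheory ProbabilityTheory Filter Topology

namespace VV176

theorem map_sqrt {s : ℝ} (hs : 0 ≤ s) :
    (gaussianReal 0 1).map (fun y => Real.sqrt s * y) = gaussianReal 0 s.toNNReal := by
  rw [gaussianReal_map_const_mul (μ := 0) (v := 1) (Real.sqrt s)]
  congr 1
  · simp
  · rw [mul_one]
    apply NNReal.eq
    rw [Real.coe_toNNReal _ hs]
    exact Real.sq_sqrt hs

theorem Gs_eq {f : ℝ → ℝ} (hf : Continuous f) {s : ℝ} (hs : 0 ≤ s) (x : ℝ) :
    Gs f s x = ∫ w, f (x + w) ∂(gaussianReal 0 s.toNNReal) := by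
  unfold Gs
  rw [← map_sqrt hs, integral_map]
  · fun_prop
  · exact (by fun_prop : Continuous fun w => f (x + w)).aestronglyMeasurable

theorem taskSG : TaskSG := by
  intro f C s t z hf hC hs ht
  have hst : 0 ≤ s + t := add_nonneg hs ht
  rw [Gs_eq hf hst]
  have e1 : ∀ y, Gs f t (z + Real.sqrt s * y) =
      (fun u => ∫ w, f (z + (u + w)) ∂(gaussianReal 0 t.toNNReal)) (Real.sqrt s * y) := by
    intro y
    rw [Gs_eq hf ht]
    simp only [add_assoc]
  have hbd : ∀ u, Integrable (fun w => f (z + (u + w))) (gaussianReal 0 t.toNNReal) := by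
    intro u
    refine Integrable.of_bound (C := C) ?_ ?_
    · exact (by fun_prop : Continuous fun w => f (z + (u + w))).aestronglyMeasurable
    · exact Eventually.of_forall fun w => by rw [Real.norm_eq_abs]; exact hC _
  have hc : Continuous fun u => ∫ w, f (z + (u + w)) ∂(gaussianReal 0 t.toNNReal) := by
    refine continuous_of_dominated (bound := fun _ => C) ?_ ?_ ?_ ?_
    · intro u
      exact (by fun_prop : Continuous fun w => f (z + (u + w))).aestronglyMeasurable
    · intro u
      exact Eventually.of_forall fun w => by rw [Real.norm_eq_abs]; exact hC _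
    · exact integrable_const _
    · exact Eventually.of_forall fun w => by fun_prop
  simp_rw [e1]
  rw [← integral_map (φ := fun y => Real.sqrt s * y)
    (f := fun u => ∫ w, f (z + (u + w)) ∂(gaussianReal 0 t.toNNReal)) (by fun_prop)
    hc.aestronglyMeasurable, map_sqrt hs]
  have e2 : gaussianReal 0 (s + t).toNNReal =
      (gaussianReal 0 s.toNNReal) ∗ (gaussianReal 0 t.toNNReal) := by
    rw [gaussianReal_conv_gaussianReal, Real.toNNReal_add hs ht, add_zero]
  rw [e2, Measure.conv, integral_map (by fun_prop)
    (by fun_prop : Continuous fun w => f (z + w)).aestronglyMeasurable,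
    integral_prod]
  refine Integrable.of_bound (C := C) ?_ ?_
  · exact (by fun_prop : Continuous fun p : ℝ × ℝ => f (z + (p.1 + p.2))).aestronglyMeasurable
  · exact Eventually.of_forall fun w => by rw [Real.norm_eq_abs]; exact hC _

end VV176
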