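import Pool.Agent.Q176.VV.Stmts

/-! # TaskSS (helper150) -/

open Filter Topology

namespace VV176

theorem ss_bound {a : ℝ} (ha : |a| ≤ 1) :
    |a ^ 2 - Real.sin a ^ 2 - a ^ 4 / 3| ≤ |a| ^ 6 := by
  have h0 := Real.sin_bound ha
  set e := Real.sin a - (a - a ^ 3 / 6) with he
  have hs : Real.sin a = (a - a ^ 3 / 6) + e := by rw [he]; ring
  rw [hs]
  have e1 : a ^ 2 - ((a - a ^ 3 / 6) + e) ^ 2 - a ^ 4 / 3 =
      -(a ^ 6 / 36) + a ^ 3 * e / 3 - 2 * a * e - e ^ 2 := by ring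
  rw [e1]
  have hb0 := abs_nonneg a
  set b := |a| with hb
  have p6 : |-(a ^ 6 / 36)| = b ^ 6 / 36 := by
    rw [abs_neg, abs_div, abs_pow, ← hb]; norm_num
  have p3 : |a ^ 3 * e / 3| ≤ b ^ 6 / 300 := by
    rw [abs_div, abs_mul, abs_pow]
    have h1 : b ^ 3 * |e| ≤ b ^ 3 * (b ^ 5 / 100) := by gcongr
    have h2 : b ^ 8 ≤ b ^ 6 := pow_le_pow_of_le_one hb0 ha (by norm_num)
    have h3 : |(3 : ℝ)| = 3 := by norm_num
    rw [h3]
    have : b ^ 3 * (b ^ 5 / 100) = b ^ 8 / 100 := by ring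
    linarith
  have p2 : |2 * a * e| ≤ b ^ 6 / 50 := by
    rw [abs_mul, abs_mul]
    have h1 : b * |e| ≤ b * (b ^ 5 / 100) := by gcongr
    have h3 : |(2 : ℝ)| = 2 := by norm_num
    rw [h3]
    have : b * (b ^ 5 / 100) = b ^ 6 / 100 := by ring
    linarith
  have pe : |e ^ 2| ≤ b ^ 6 / 100 := by
    rw [abs_pow]
    have h1 : |e| ^ 2 ≤ (b ^ 5 / 100) ^ 2 := by gcongr
    have h2 : b ^ 10 ≤ b ^ 6 := pow_le_pow_of_le_one hb0 ha (by norm_num)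
    have : (b ^ 5 / 100) ^ 2 = b ^ 10 / 10000 := by ring
    nlinarith [pow_nonneg hb0 6]
  have t1 := abs_sub (-(a ^ 6 / 36) + a ^ 3 * e / 3 - 2 * a * e) (e ^ 2)
  have t2 := abs_sub (-(a ^ 6 / 36) + a ^ 3 * e / 3) (2 * a * e)
  have t3 := abs_add_le (-(a ^ 6 / 36)) (a ^ 3 * e / 3)
  have := pow_nonneg hb0 6
  linarith

theorem taskSS : TaskSS := by
  unfold TaskSS
  have h1 : Tendsto (fun a : ℝ => a ^ 2) (𝓝[≠] 0) (𝓝 0) := by
    have : Tendsto (fun a : ℝ => a ^ 2) (𝓝 0) (𝓝 (0 ^ 2)) := (continuous_pow 2).tendsto 0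
    simpa using this.mono_left nhdsWithin_le_nhds
  rw [tendsto_iff_norm_sub_tendsto_zero]
  refine squeeze_zero' (Eventually.of_forall fun a => norm_nonneg _) ?_ h1
  have h2 : ∀ᶠ a : ℝ in 𝓝[≠] 0, |a| ≤ 1 := by
    have : ∀ᶠ a : ℝ in 𝓝 0, |a| ≤ 1 := by
      have := Metric.closedBall_mem_nhds (0 : ℝ) one_pos
      filter_upwards [this] with a ha
      simpa [Real.dist_eq] using ha
    exact nhdsWithin_le_nhds this
  filter_upwards [h2, self_mem_nhdsWithin] with a ha ha0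
  have ha0' : a ≠ 0 := ha0
  have e : (a ^ 2 - Real.sin a ^ 2) / a ^ 4 - 1 / 3 =
      (a ^ 2 - Real.sin a ^ 2 - a ^ 4 / 3) / a ^ 4 := by
    field_simp
  rw [Real.norm_eq_abs, e, abs_div, abs_pow, div_le_iff₀ (by positivity)]
  have h3 := ss_bound ha
  have h4 : a ^ 2 * |a| ^ 4 = |a| ^ 6 := by
    rw [← sq_abs a]; ring
  rw [h4]
  exact h3

end VV176
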