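import Pool.Agent.Q176.VV.Stmts

/-! Blueprint for MP_e9de1a_an: `TaskSeq`. -/

open MeasureTheory ProbabilityTheory Filter Topology Set

namespace VV176

namespace SeqAux

lemma logdiff (l c : ℕ → ℝ) (c0 : ℝ) (hl : Tendsto l atTop atTop) (hc : Tendsto c atTop (𝓝 c0)) :
    Tendsto (fun k => Real.log (1 + (-(l k) + c k) ^ 2) - Real.log (1 + (l k) ^ 2)) atTop (𝓝 0) := by
  have h1 : Tendsto (fun k => (l k)⁻¹) atTop (𝓝 0) := tendsto_inv_atTop_zero.comp hl
  have h2 : Tendsto (fun k => l k / (1 + l k ^ 2)) atTop (𝓝 0) := by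
    refine squeeze_zero' ?_ ?_ h1
    · filter_upwards [hl.eventually_gt_atTop 0] with k hk
      positivity
    · filter_upwards [hl.eventually_gt_atTop 0] with k hk
      rw [div_le_iff₀ (by positivity)]
      have : (l k)⁻¹ * (1 + l k ^ 2) = (l k)⁻¹ + l k := by
        field_simp
      rw [this]
      have : 0 < (l k)⁻¹ := by positivity
      linarith
  have h3 : Tendsto (fun k => 1 / (1 + l k ^ 2)) atTop (𝓝 0) := by
    refine squeeze_zero' ?_ ?_ h1
    · filter_upwards with k
      positivity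
    · filter_upwards [hl.eventually_gt_atTop 0] with k hk
      rw [div_le_iff₀ (by positivity)]
      have : (l k)⁻¹ * (1 + l k ^ 2) = (l k)⁻¹ + l k := by
        field_simp
      rw [this]
      have h5 : 0 < (l k)⁻¹ := by positivity
      have h6 : (l k)⁻¹ * l k = 1 := by field_simp
      nlinarith [sq_nonneg ((l k)⁻¹ - l k)]
  have h4 : Tendsto (fun k => 1 + (-2 * c k * (l k / (1 + l k ^ 2)) + c k ^ 2 * (1 / (1 + l k ^ 2))))
      atTop (𝓝 (1 + (-2 * c0 * 0 + c0 ^ 2 * 0))) := by
    exact tendsto_const_nhds.add (((hc.const_mul (-2)).mul h2).add ((hc.pow 2).mul h3))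
  have h5 : Tendsto (fun k => Real.log (1 + (-2 * c k * (l k / (1 + l k ^ 2))
      + c k ^ 2 * (1 / (1 + l k ^ 2))))) atTop (𝓝 0) := by
    have h6 : (1 + (-2 * c0 * 0 + c0 ^ 2 * 0) : ℝ) = 1 := by ring
    rw [h6] at h4
    have := (Real.continuousAt_log (x := 1) one_ne_zero).tendsto.comp h4
    rw [Real.log_one] at this
    exact this
  refine h5.congr fun k => ?_
  have e1 : (0:ℝ) < 1 + (-(l k) + c k) ^ 2 := by positivity
  have e2 : (0:ℝ) < 1 + (l k) ^ 2 := by positivity
  rw [← Real.log_div e1.ne' e2.ne']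
  congr 1
  field_simp
  ring

end SeqAux

open SeqAux in
theorem taskSeq : TaskSeq := by
  intro a
  obtain ⟨K, hK⟩ := exists_nat_ge |a|
  have hpi : 1 ≤ 2 * Real.pi := by linarith [Real.pi_gt_three]
  have hE : ∀ k : ℕ, 0 ≤ a + 2 * Real.pi * ((k : ℝ) + K) := by
    intro k
    have h1 : (0:ℝ) ≤ k := Nat.cast_nonneg k
    have h2 : (0:ℝ) ≤ K := Nat.cast_nonneg K
    have h3 := neg_abs_le a
    nlinarith
  set L : ℕ → ℝ := fun k => Real.sqrt (Real.exp (a + 2 * Real.pi * ((k : ℝ) + K)) - 1) with hL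
  have hLsq : ∀ k, 1 + L k ^ 2 = Real.exp (a + 2 * Real.pi * ((k : ℝ) + K)) := by
    intro k
    have h1 : 0 ≤ Real.exp (a + 2 * Real.pi * ((k : ℝ) + K)) - 1 := by
      have := Real.one_le_exp (hE k)
      linarith
    simp only [hL]
    rw [Real.sq_sqrt h1]
    ring
  have hLtop : Tendsto L atTop atTop := by
    have h1 : Tendsto (fun k : ℕ => a + 2 * Real.pi * ((k : ℝ) + K)) atTop atTop := by
      apply tendsto_atTop_add_const_left
      apply Tendsto.const_mul_atTop (by linarith)
      apply tendsto_atTop_add_const_right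
      exact tendsto_natCast_atTop_atTop
    have h2 : Tendsto (fun k : ℕ => Real.exp (a + 2 * Real.pi * ((k : ℝ) + K)) + (-1)) atTop atTop :=
      tendsto_atTop_add_const_right _ _ (Real.tendsto_exp_atTop.comp h1)
    exact Real.tendsto_sqrt_atTop.comp h2
  set r : ℕ → ℝ := fun k => Real.exp (-(L k) / 2) with hr
  have hr0 : ∀ k, 0 < r k := fun k => Real.exp_pos _
  have hrlog : ∀ k, Real.log (r k ^ 2) = -(L k) := by
    intro k
    simp only [hr]
    rw [← Real.exp_nat_mul, Real.log_exp]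
    push_cast
    ring
  have hrt : Tendsto r atTop (𝓝 0) := by
    have h1 : Tendsto (fun k => -(L k) / 2) atTop atBot := by
      have : Tendsto (fun k => L k / 2) atTop atTop := hLtop.atTop_div_const (by norm_num)
      have h2 := tendsto_neg_atTop_atBot.comp this
      refine h2.congr fun k => ?_
      simp only [Function.comp]
      ring
    exact Real.tendsto_exp_atBot.comp h1
  refine ⟨r, hr0, hrt, ?_⟩
  intro x hx
  have hpx : Real.pi * x ≠ 0 := mul_ne_zero Real.pi_ne_zero hx
  have hd : Tendsto (fun k => (r k)⁻¹ * Real.sin (Real.pi * (r k * x))) atTop (𝓝 (Real.pi * x)) := by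
    have h1 : HasDerivAt (fun t : ℝ => Real.sin (Real.pi * (t * x))) (Real.pi * x) 0 := by
      have h2 : HasDerivAt (fun t : ℝ => Real.pi * (t * x)) (Real.pi * x) 0 := by
        have := ((hasDerivAt_id (0:ℝ)).mul_const x).const_mul Real.pi
        simpa using this
      have h3 := h2.sin
      simpa using h3
    have h4 := h1.tendsto_slope_zero
    have h5 : Tendsto r atTop (𝓝[≠] 0) := by
      rw [tendsto_nhdsWithin_iff]
      exact ⟨hrt, Eventually.of_forall fun k => (hr0 k).ne'⟩
    have h6 := h4.comp h5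
    refine h6.congr fun k => ?_
    simp [Function.comp, smul_eq_mul]
  have hc : Tendsto (fun k => Real.log (((r k)⁻¹ * Real.sin (Real.pi * (r k * x))) ^ 2)) atTop
      (𝓝 (Real.log ((Real.pi * x) ^ 2))) :=
    (Real.continuousAt_log (pow_ne_zero 2 hpx)).tendsto.comp (hd.pow 2)
  have hdiff := logdiff L _ _ hLtop hc
  have hne : ∀ᶠ k in atTop, (r k)⁻¹ * Real.sin (Real.pi * (r k * x)) ≠ 0 :=
    hd.eventually_ne hpx
  have hsin : ∀ k, Real.sin (Real.log (1 + L k ^ 2)) = Real.sin a := by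
    intro k
    rw [hLsq k, Real.log_exp]
    have : a + 2 * Real.pi * ((k : ℝ) + K) = a + ((k + K : ℕ) : ℝ) * (2 * Real.pi) := by
      push_cast; ring
    rw [this, Real.sin_add_nat_mul_two_pi]
  have hs : Tendsto (fun k => Real.sin (Real.log (1 + (-(L k) +
      Real.log (((r k)⁻¹ * Real.sin (Real.pi * (r k * x))) ^ 2)) ^ 2))) atTop (𝓝 (Real.sin a)) := by
    rw [tendsto_iff_dist_tendsto_zero]
    have h0 : Tendsto (fun k => |Real.log (1 + (-(L k) +
      Real.log (((r k)⁻¹ * Real.sin (Real.pi * (r k * x))) ^ 2)) ^ 2) - Real.log (1 + (L k) ^ 2)|)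
      atTop (𝓝 0) := by
      have := hdiff.abs
      rwa [abs_zero] at this
    refine squeeze_zero (fun k => dist_nonneg) (fun k => ?_) h0
    rw [← hsin k, Real.dist_eq]
    exact Real.abs_sin_sub_sin_le _ _
  have hfin := hs.const_add 2
  refine hfin.congr' ?_
  filter_upwards [hne] with k hk
  have hrk := (hr0 k).ne'
  have e : Real.sin (Real.pi * (r k * x)) ^ 2 =
      r k ^ 2 * ((r k)⁻¹ * Real.sin (Real.pi * (r k * x))) ^ 2 := by
    field_simp
  unfold M
  rw [e, Real.log_mul (pow_ne_zero 2 hrk) (pow_ne_zero 2 hk), hrlog k]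

end VV176
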