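import Pool.Agent.Q176.VV.Stmts

/-! # `TaskTerm` -/

open MeasureTheory ProbabilityTheory Filter Topology Set

namespace VV176

theorem taskTerm : TaskTerm := by
  intro f h C e T z hf hh hfC hhC hG
  have hGb : ∀ s x, |Gs f s x| ≤ C := by
    intro s x
    unfold Gs
    rw [← Real.norm_eq_abs]
    have h1 := norm_integral_le_of_norm_le_const (μ := gaussianReal 0 1)
      (f := fun y => f (x + Real.sqrt s * y)) (C := C)
      (Eventually.of_forall fun y => by rw [Real.norm_eq_abs]; exact hfC _)
    simpa using h1
  have hC0 : 0 ≤ C := (abs_nonneg _).trans (hfC 0)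
  have hcont : Continuous (fun t : ℝ => ∫ y, Gs f (2 * e * t) (z + Real.sqrt (2 * e * (T - t)) * y)
      * h (z + Real.sqrt (2 * e * (T - t)) * y) ∂(gaussianReal 0 1)) := by
    have hjoint : Continuous (fun p : ℝ × ℝ =>
        Gs f (2 * e * p.1) (z + Real.sqrt (2 * e * (T - p.1)) * p.2)
          * h (z + Real.sqrt (2 * e * (T - p.1)) * p.2)) := by
      refine Continuous.mul ?_ ?_
      · exact hG.comp (f := fun p : ℝ × ℝ =>
          (2 * e * p.1, z + Real.sqrt (2 * e * (T - p.1)) * p.2)) (by fun_prop)
      · exact hh.comp (by fun_prop)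
    refine continuous_of_dominated (bound := fun _ => C * C) ?_ ?_ ?_ ?_
    · intro t
      exact (hjoint.comp (f := fun y : ℝ => (t, y)) (by fun_prop)).aestronglyMeasurable
    · intro t
      refine Eventually.of_forall fun y => ?_
      rw [norm_mul, Real.norm_eq_abs, Real.norm_eq_abs]
      exact mul_le_mul (hGb _ _) (hhC _) (abs_nonneg _) hC0
    · exact integrable_const _
    · refine Eventually.of_forall fun y => ?_
      exact hjoint.comp (f := fun t : ℝ => (t, y)) (by fun_prop)
  have h2 := (hcont.tendsto T).mono_left (nhdsWithin_le_nhds (s := Set.Iio T))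
  simpa using h2

end VV176
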