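import Pool.Agent.Q176.VV.Stmts

open MeasureTheory ProbabilityTheory Filter Topology Set

namespace VV176

theorem taskWellId : TaskWellId := by
  constructor
  · intro s
    have e1 : 2 * Real.pi * (1 / 4 + s) = 2 * Real.pi * s + Real.pi / 2 := by ring
    have e2 : Real.pi * (1 / 4 + s - 1 / 4) = Real.pi * s := by ring
    have e3 : Real.pi * (1 / 4 + s + 1 / 4) = Real.pi * s + Real.pi / 2 := by ring
    have e4 : Real.sin (2 * Real.pi * s) = 2 * Real.sin (Real.pi * s) * Real.cos (Real.pi * s) := by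
      rw [← Real.sin_two_mul]; congr 1; ring
    have e5 : Real.cos (2 * Real.pi * (1 / 4 + s)) = - Real.sin (2 * Real.pi * s) := by
      rw [e1, Real.cos_add_pi_div_two]
    unfold VV g kk PP
    rw [e5, e2, e3, Real.sin_add_pi_div_two]
    have e6 : (10 : ℝ) * Real.sin (2 * Real.pi * s) ^ 4 =
        160 * (Real.sin (Real.pi * s) ^ 4 * Real.cos (Real.pi * s) ^ 4) := by
      rw [e4]; ring
    rw [e6]
    ring
  · intro s
    have e1 : 2 * Real.pi * (-(1 / 4) - s) = -(2 * Real.pi * s + Real.pi / 2) := by ring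
    have e2 : Real.pi * (-(1 / 4) - s - 1 / 4) = -(Real.pi * s + Real.pi / 2) := by ring
    have e3 : Real.pi * (-(1 / 4) - s + 1 / 4) = -(Real.pi * s) := by ring
    have e4 : Real.sin (2 * Real.pi * s) = 2 * Real.sin (Real.pi * s) * Real.cos (Real.pi * s) := by
      rw [← Real.sin_two_mul]; congr 1; ring
    have e5 : Real.cos (2 * Real.pi * (-(1 / 4) - s)) = - Real.sin (2 * Real.pi * s) := by
      rw [e1, Real.cos_neg, Real.cos_add_pi_div_two]
    unfold VV g kk PP
    rw [e5, e2, e3, Real.sin_neg, Real.sin_neg, Real.sin_add_pi_div_two]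
    have e6 : (10 : ℝ) * Real.sin (2 * Real.pi * s) ^ 4 =
        160 * (Real.sin (Real.pi * s) ^ 4 * Real.cos (Real.pi * s) ^ 4) := by
      rw [e4]; ring
    have e7 : (-Real.cos (Real.pi * s)) ^ 2 = Real.cos (Real.pi * s) ^ 2 := by ring
    rw [e6, e7]
    ring

end VV176
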