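import Pool.Agent.Q176.VV.Stmts

set_option autoImplicit false

/-! MP_e9de1a_an blueprint: TaskWellLim (pointwise limits in the wells). -/

open MeasureTheory ProbabilityTheory Filter Topology Set

namespace VV176

theorem PP_neg (a : ℝ) : PP (-a) = -PP a := by
  unfold PP
  rw [Real.sin_neg]
  ring

theorem PP_abs (h : ∀ a, 0 ≤ a → 0 ≤ PP a ∧ PP a ≤ 3 / 20 * a ^ 5) (a : ℝ) :
    |PP a| ≤ 3 / 20 * |a| ^ 5 := by
  rcases le_total 0 a with ha | ha
  · obtain ⟨h1, h2⟩ := h a ha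
    rw [abs_of_nonneg h1, abs_of_nonneg ha]
    exact h2
  · obtain ⟨h1, h2⟩ := h (-a) (by linarith)
    rw [PP_neg] at h1 h2
    rw [abs_of_nonpos (by linarith), abs_of_nonpos ha]
    exact h2

theorem taskWellLim : TaskWellLim := by
  intro hPP hSS r N m x hr hr0 hx hN
  have hpi : (0 : ℝ) < Real.pi := Real.pi_pos
  set p : ℕ → ℝ := fun k => 2 * Real.pi * (r k * x) with hp
  have hpne : ∀ k, p k ≠ 0 := by
    intro k
    have := (hr k).ne'
    simp only [hp]
    positivity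
  have hp0 : Tendsto p atTop (𝓝 0) := by
    have : Tendsto (fun k => 2 * Real.pi * (r k * x)) atTop (𝓝 (2 * Real.pi * (0 * x))) :=
      (hr0.mul_const x).const_mul _
    simpa using this
  have hp0' : Tendsto p atTop (𝓝[≠] 0) := by
    rw [tendsto_nhdsWithin_iff]
    exact ⟨hp0, Eventually.of_forall hpne⟩
  have h1 : Tendsto (fun k => ((p k) ^ 2 - Real.sin (p k) ^ 2) / (p k) ^ 4) atTop (𝓝 (1/3)) :=
    hSS.comp hp0'
  have h2 : Tendsto (fun k => PP (p k) / (p k) ^ 4) atTop (𝓝 0) := by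
    apply squeeze_zero_norm (a := fun k => 3 / 20 * |p k|)
    · intro k
      have hk := abs_pos.mpr (hpne k)
      rw [Real.norm_eq_abs, abs_div, abs_pow, div_le_iff₀ (by positivity)]
      calc |PP (p k)| ≤ 3 / 20 * |p k| ^ 5 := PP_abs hPP _
        _ = 3 / 20 * |p k| * |p k| ^ 4 := by ring
    · have := (hp0.abs).const_mul (3 / 20)
      simpa using this
  have h3 : Tendsto (fun k => Real.sinc (p k)) atTop (𝓝 1) := by
    have := (Real.continuous_sinc.tendsto 0).comp hp0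
    simpa [Function.comp_def] using this
  have h4 : Tendsto (fun k => ((((p k) ^ 2 - Real.sin (p k) ^ 2) / (p k) ^ 4) / 2
      + Real.pi / 4 * (PP (p k) / (p k) ^ 4) + 10 * Real.sinc (p k) ^ 4 * N k) * (2 * Real.pi * x) ^ 4)
      atTop (𝓝 (((1/3) / 2 + Real.pi / 4 * 0 + 10 * 1 ^ 4 * m) * (2 * Real.pi * x) ^ 4)) :=
    ((((h1.div_const 2).add (h2.const_mul _)).add (((h3.pow 4).const_mul 10).mul hN)).mul_const _)
  have h5 : ((1/3) / 2 + Real.pi / 4 * 0 + 10 * 1 ^ 4 * m) * (2 * Real.pi * x) ^ 4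
      = ((2 * Real.pi) ^ 4 * (1/6 + 10 * m)) * x ^ 4 := by ring
  rw [h5] at h4
  refine h4.congr ?_
  intro k
  have hrk := (hr k).ne'
  have hpk := hpne k
  rw [Real.sinc_of_ne_zero hpk]
  have e : (2 * Real.pi * x) ^ 4 = (p k) ^ 4 / (r k) ^ 4 := by
    simp only [hp]
    field_simp
  rw [e]
  change _ = (((p k) ^ 2 - Real.sin (p k) ^ 2) / 2 + Real.pi / 4 * PP (p k)
    + 10 * Real.sin (p k) ^ 4 * N k) / (r k) ^ 4
  field_simp

end VV176
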