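import Pool.Agent.Q176.VV.Stmts

set_option autoImplicit false

open MeasureTheory ProbabilityTheory Filter Topology Set

namespace VV176

theorem PP_neg (a : ℝ) : PP (-a) = -PP a := by
  unfold PP
  rw [Real.sin_neg]; ring

/-- fourth power of the sine on `[0, π/2]` -/
theorem sin_pow_four_ge {q : ℝ} (h0 : 0 ≤ q) (h1 : q ≤ Real.pi / 2) :
    (16 / 100 : ℝ) * q ^ 4 ≤ Real.sin q ^ 4 := by
  have hj := Real.mul_le_sin h0 h1
  have hpi : Real.pi < 3.15 := Real.pi_lt_d2
  have hpi0 := Real.pi_pos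
  have h2 : (2 / 3.15 : ℝ) * q ≤ Real.sin q := by
    refine le_trans ?_ hj
    apply mul_le_mul_of_nonneg_right _ h0
    apply div_le_div_of_nonneg_left (by norm_num) hpi0 hpi.le
  have h3 : ((2 / 3.15 : ℝ) * q) ^ 4 ≤ Real.sin q ^ 4 :=
    pow_le_pow_left₀ (by positivity) h2 4
  refine le_trans ?_ h3
  rw [mul_pow]
  apply mul_le_mul_of_nonneg_right _ (by positivity)
  norm_num

theorem low_frac (p : ℝ) : p ^ 4 / (20 * (1 + p ^ 2)) ≤ p ^ 4 / 20 := by
  apply div_le_div_of_nonneg_left (by positivity) (by norm_num)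
  nlinarith [sq_nonneg p]

theorem low_frac2 (p : ℝ) : p ^ 4 / (20 * (1 + p ^ 2)) ≤ p ^ 2 / 20 := by
  rw [div_le_div_iff₀ (by positivity) (by norm_num)]
  nlinarith [sq_nonneg p, sq_nonneg (p ^ 2)]

theorem taskLow : TaskLow := by
  intro hPP p m hp hm
  have hpi : Real.pi < 3.15 := Real.pi_lt_d2
  have hpi3 : 3 < Real.pi := Real.pi_gt_three
  have hpi0 := Real.pi_pos
  rcases le_or_gt p 0 with h0 | h0
  · -- p ∈ [-π/2, 0]
    obtain ⟨q, rfl⟩ : ∃ q, p = -q := ⟨-p, by ring⟩
    have hq0 : 0 ≤ q := by linarith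
    have hq1 : q ≤ Real.pi / 2 := by linarith
    obtain ⟨-, hP⟩ := hPP q hq0
    have hs := sin_pow_four_ge hq0 hq1
    have hsq : Real.sin q ^ 2 ≤ q ^ 2 := by
      have := Real.sin_le hq0
      have h' : 0 ≤ Real.sin q := Real.sin_nonneg_of_nonneg_of_le_pi hq0 (by linarith)
      exact pow_le_pow_left₀ h' this 2
    have hf := low_frac (-q)
    rw [PP_neg, Real.sin_neg]
    have e1 : (-q) ^ 4 = q ^ 4 := by ring
    have e2 : (-q) ^ 2 = q ^ 2 := by ring
    have e3 : (-Real.sin q) ^ 4 = Real.sin q ^ 4 := by ring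
    have e4 : (-Real.sin q) ^ 2 = Real.sin q ^ 2 := by ring
    rw [e1, e2] at hf
    rw [e1, e2, e3, e4]
    have hq4 : 0 ≤ q ^ 4 := by positivity
    have hq5 : q ^ 5 ≤ 1.575 * q ^ 4 := by
      have : q ^ 5 = q * q ^ 4 := by ring
      rw [this]
      apply mul_le_mul_of_nonneg_right _ hq4
      linarith
    have hPi : Real.pi / 4 * PP q ≤ 0.79 * (3 / 20 * (1.575 * q ^ 4)) := by
      have hP0 : 0 ≤ PP q := (hPP q hq0).1
      have : PP q ≤ 3 / 20 * (1.575 * q ^ 4) := by linarith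
      apply mul_le_mul _ this hP0 (by norm_num)
      linarith
    have hm' : 10 * Real.sin q ^ 4 ≤ 10 * Real.sin q ^ 4 * m := by
      have : 0 ≤ 10 * Real.sin q ^ 4 := by positivity
      nlinarith
    have e5 : Real.pi / 4 * -PP q = -(Real.pi / 4 * PP q) := by ring
    rw [e5]
    linarith
  · rcases le_or_gt p (Real.pi / 2) with h1 | h1
    · -- p ∈ [0, π/2]
      obtain ⟨hP, -⟩ := hPP p h0.le
      have hs := sin_pow_four_ge h0.le h1
      have hsq : Real.sin p ^ 2 ≤ p ^ 2 := by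
        have := Real.sin_le h0.le
        have h' : 0 ≤ Real.sin p := Real.sin_nonneg_of_nonneg_of_le_pi h0.le (by linarith)
        exact pow_le_pow_left₀ h' this 2
      have hf := low_frac p
      have hq4 : 0 ≤ p ^ 4 := by positivity
      have hPi : 0 ≤ Real.pi / 4 * PP p := by positivity
      have hm' : 10 * Real.sin p ^ 4 ≤ 10 * Real.sin p ^ 4 * m := by
        have : 0 ≤ 10 * Real.sin p ^ 4 := by positivity
        nlinarith
      linarith
    · -- p ≥ π/2
      obtain ⟨hP, -⟩ := hPP p h0.le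
      have hf := low_frac2 p
      have hPi : 0 ≤ Real.pi / 4 * PP p := by positivity
      have hm' : 0 ≤ 10 * Real.sin p ^ 4 * m := by positivity
      have hsq : Real.sin p ^ 2 ≤ 1 := Real.sin_sq_le_one p
      have hp2 : (2.25 : ℝ) ≤ p ^ 2 := by nlinarith
      linarith

end VV176
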