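import Mathlib
import Pool.Agent.Q176.VV.Asm3
import Pool.Agent.Q176.VV.TB2
import Pool.Agent.Q176.VV.TGibbs
import Pool.Agent.Q176.VV.THC
import Pool.Agent.Q176.VV.THT
import Pool.Agent.Q176.VV.THX
import Pool.Agent.Q176.VV.TJ
import Pool.Agent.Q176.VV.TKK
import Pool.Agent.Q176.VV.TLap
import Pool.Agent.Q176.VV.TPP
import Pool.Agent.Q176.VV.TPer
import Pool.Agent.Q176.VV.TSG
import Pool.Agent.Q176.VV.TSS
import Pool.Agent.Q176.VV.TSeq
import Pool.Agent.Q176.VV.TSplit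
import Pool.Agent.Q176.VV.TTerm
import Pool.Agent.Q176.VV.TWellId
import Pool.Agent.Q176.VV.TWellLim
import Pool.Agent.Q176.VV.TaskLow
import Pool.Agent.Q176.VV.TDyn

open MeasureTheory ProbabilityTheory Filter Topology Set

namespace VV176

theorem g_contDiff : ContDiff ℝ 2 g := by
  have h1 : ContDiff ℝ 2 (fun y : ℝ => kk (Real.sin (Real.pi * (y - 1/4)))) :=
    taskKK.comp (by fun_prop)
  unfold g
  fun_prop

theorem A1_half_sq : A1 (fun _ p => p ^ 2 / 2) := by
  intro R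
  refine ⟨max 1 (8 * |R|), fun x p hp => ?_⟩
  have h1 : 1 ≤ |p| := (le_max_left _ _).trans hp
  have h2 : 8 * |R| ≤ |p| := (le_max_right _ _).trans hp
  simp only [deriv_const', zero_mul, add_zero]
  have h3 : |p| ≤ p ^ 4 := by
    have : p ^ 4 = |p| ^ 4 := by
      rw [← abs_pow, abs_of_nonneg (by positivity)]
    rw [this]
    calc |p| = |p| ^ 1 := (pow_one _).symm
      _ ≤ |p| ^ 4 := pow_le_pow_right₀ h1 (by norm_num)
  have h4 : R ≤ |R| := le_abs_self R
  nlinarith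

theorem bounded_of_periodic (h : ℝ → ℝ) (hh : Continuous h) (hp : ∀ x, h (x + 1) = h x) :
    ∃ K, 0 ≤ K ∧ ∀ x, |h x| ≤ K := by
  have hper : Function.Periodic h 1 := hp
  obtain ⟨K, hK⟩ := (isCompact_Icc (a := (0:ℝ)) (b := 1)).exists_bound_of_continuousOn hh.continuousOn
  have hall : ∀ x, |h x| ≤ K := by
    intro x
    obtain ⟨y, hy, hxy⟩ := hper.exists_mem_Ico₀ one_pos x
    rw [hxy]
    exact hK y ⟨hy.1, hy.2.le⟩
  exact ⟨K, (abs_nonneg _).trans (hall 0), hall⟩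

/-- the exponential of the initial datum -/
noncomputable def ff (ε : ℝ) : ℝ → ℝ := fun y => Real.exp (-(g y) / (2 * ε))

noncomputable def uu (ε : ℝ) : ℝ → ℝ → ℝ :=
  fun x t => -(2 * ε) * Real.log (Gs (fun y => Real.exp (-(g y) / (2 * ε))) (2 * ε * t) x)

noncomputable def ss (ε : ℝ) : ℝ → Measure ℝ :=
  sig (fun y => Real.exp (-(g y) / (2 * ε))) ε 0 (1 / (4 * Real.pi ^ 2))

theorem main_eps : ∃ C : ℝ, ∀ ε, 0 < ε →
    ViscousSolution (fun _ p => p ^ 2 / 2) g ε (uu ε) ∧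
    AdjointSolution (fun _ p => p ^ 2 / 2) (uu ε) ε 0 (1 / (4 * Real.pi ^ 2)) (ss ε) ∧
    (∀ x t, |deriv (fun y => uu ε y t) x| ≤ C) ∧
    muInt (uu ε) (ss ε) (1 / (4 * Real.pi ^ 2)) (fun _ p _ => p)
      = -((∫ y, y * Real.exp (-(VV y) / (2 * ε))) / ∫ y, Real.exp (-(VV y) / (2 * ε))) := by
  have hgp := taskPer.1
  have hg2 := g_contDiff
  have cg : Continuous g := hg2.continuous
  have cg' : Continuous (deriv g) := hg2.continuous_deriv (by norm_num)
  have hgp' : ∀ x, deriv g (x + 1) = deriv g x := by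
    intro x
    have h1 : (fun x => g (x + 1)) = g := funext hgp
    have h2 := deriv_comp_add_const g 1 x
    rw [← h2, h1]
  obtain ⟨G, hG0, hG⟩ := bounded_of_periodic g cg hgp
  obtain ⟨C1, hC10, hC1⟩ := bounded_of_periodic (deriv g) cg' hgp'
  refine ⟨C1, fun ε hε => ?_⟩
  have hpi := Real.pi_pos
  set f : ℝ → ℝ := fun y => Real.exp (-(g y) / (2 * ε)) with hf
  have hf2 : ContDiff ℝ 2 f := by
    simp only [hf]
    fun_prop
  have hfp : ∀ x, f (x + 1) = f x := fun x => by simp only [hf, hgp]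
  obtain ⟨C, hB⟩ := taskB2 f hf2 hfp
  have hcl : ∀ x, Real.exp (-(G / (2 * ε))) ≤ f x := by
    intro x
    apply Real.exp_le_exp.2
    rw [neg_div]
    apply neg_le_neg
    exact div_le_div_of_nonneg_right ((le_abs_self _).trans (hG x)) (by positivity)
  obtain ⟨hV, hux⟩ := coleHopf taskHX taskHT taskHC g (deriv f) (deriv (deriv f)) C
    (Real.exp (-(G / (2 * ε)))) ε hε hgp hB (Real.exp_pos _) hcl
  obtain ⟨hA, hmu⟩ := adj taskSG taskDyn taskTerm taskHC taskB2 g (deriv f) (deriv (deriv f)) C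
    (Real.exp (-(G / (2 * ε)))) ε 0 (1 / (4 * Real.pi ^ 2)) hε (by positivity) hB (Real.exp_pos _) hcl hux
  have cf : Continuous f := hf2.continuous
  have hpos : ∀ s x, 0 < Gs f s x := fun s x =>
    (Real.exp_pos _).trans_le (Gs_ge f _ C cf hB.b0 hcl s x)
  have c1 : Continuous (deriv f) := continuous_iff_continuousAt.2 fun x => (hB.d2 x).continuousAt
  refine ⟨hV, hA, ?_, ?_⟩
  · intro x t
    show |deriv (fun y => -(2 * ε) * Real.log (Gs f (2 * ε * t) y)) x| ≤ C1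
    rw [hux t x]
    have hk : ∀ y, |deriv f y| ≤ (C1 / (2 * ε)) * f y := by
      intro y
      have h1 : HasDerivAt g (deriv g y) y :=
        (hg2.differentiable (by norm_num) y).hasDerivAt
      have h2 : HasDerivAt f (f y * (-(deriv g y) / (2 * ε))) y :=
        (h1.neg.div_const (2 * ε)).exp
      rw [h2.deriv, abs_mul, abs_div, abs_neg, abs_of_pos (by positivity : (0:ℝ) < 2 * ε),
        abs_of_pos (Real.exp_pos _ : 0 < f y), mul_comm]
      exact mul_le_mul_of_nonneg_right (div_le_div_of_nonneg_right (hC1 y) (by positivity))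
        (Real.exp_pos _).le
    have h3 := Gs_abs_le f (deriv f) (C1 / (2 * ε)) C cf hB.b0 c1 hk (2 * ε * t) x
    rw [abs_mul, abs_neg, abs_of_pos (by positivity : (0:ℝ) < 2 * ε), abs_div,
      abs_of_pos (hpos _ _)]
    have h4 := hpos (2 * ε * t) x
    calc 2 * ε * (|Gs (deriv f) (2 * ε * t) x| / Gs f (2 * ε * t) x)
        ≤ 2 * ε * ((C1 / (2 * ε) * Gs f (2 * ε * t) x) / Gs f (2 * ε * t) x) := by
          apply mul_le_mul_of_nonneg_left _ (by positivity)
          exact div_le_div_of_nonneg_right h3 h4.le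
      _ = C1 := by field_simp
  · have h5 : muInt (uu ε) (ss ε) (1 / (4 * Real.pi ^ 2)) (fun _ p _ => p)
        = 1 / (4 * Real.pi ^ 2) * (-(2 * ε) * Gs (deriv f) (2 * ε * (1 / (4 * Real.pi ^ 2))) 0
          / Gs f (2 * ε * (1 / (4 * Real.pi ^ 2))) 0) := hmu
    rw [h5]
    obtain ⟨e1, e2⟩ := taskGibbs f (deriv f) C (2 * ε * (1 / (4 * Real.pi ^ 2))) hB.d1 c1 hB.b0 hB.b1
      (by positivity)
    rw [e1, e2]
    have e3 : (fun y => f y * Real.exp (-(y ^ 2) / (2 * (2 * ε * (1 / (4 * Real.pi ^ 2))))))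
        = fun y => Real.exp (-(VV y) / (2 * ε)) := funext fun y => gibbs_weight ε y hε
    have e4 : (fun y => y * (f y * Real.exp (-(y ^ 2) / (2 * (2 * ε * (1 / (4 * Real.pi ^ 2)))))))
        = fun y => y * Real.exp (-(VV y) / (2 * ε)) := funext fun y => by
      rw [hf]
      simp only
      rw [gibbs_weight ε y hε]
    rw [e3, e4]
    have h6 : (Real.sqrt (2 * Real.pi * (2 * ε * (1 / (4 * Real.pi ^ 2)))))⁻¹ ≠ 0 := by
      have : 0 < Real.sqrt (2 * Real.pi * (2 * ε * (1 / (4 * Real.pi ^ 2)))) :=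
        Real.sqrt_pos.2 (by positivity)
      positivity
    generalize (Real.sqrt (2 * Real.pi * (2 * ε * (1 / (4 * Real.pi ^ 2)))))⁻¹ = q at h6
    generalize (∫ y, y * Real.exp (-(VV y) / (2 * ε))) = N
    generalize (∫ y, Real.exp (-(VV y) / (2 * ε))) = D
    by_cases hD : D = 0
    · simp [hD]
    · field_simp

/-- two sequences with different limits -/
theorem two_limits : ∃ (e e' : ℕ → ℝ) (L L' : ℝ), Tendsto e atTop (𝓝[>] 0) ∧
    Tendsto e' atTop (𝓝[>] 0) ∧ L ≠ L' ∧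
    Tendsto (fun k => -((∫ y, y * Real.exp (-(VV y) / (2 * (e k))))
        / ∫ y, Real.exp (-(VV y) / (2 * (e k))))) atTop (𝓝 L) ∧
    Tendsto (fun k => -((∫ y, y * Real.exp (-(VV y) / (2 * (e' k))))
        / ∫ y, Real.exp (-(VV y) / (2 * (e' k))))) atTop (𝓝 L') := by
  have hpi := Real.pi_pos
  obtain ⟨r, hr, hr0, hM⟩ := taskSeq 0
  obtain ⟨r', hr', hr0', hM'⟩ := taskSeq (Real.pi / 2)
  rw [Real.sin_zero, add_zero] at hM
  rw [Real.sin_pi_div_two] at hM'
  have h1 := gibbs_lim taskPP taskSS taskLow taskWellId taskWellLim taskLap taskJ taskSplit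
    g_contDiff taskPer.1 r 2 (by norm_num) hr hr0 hM
  have h2 := gibbs_lim taskPP taskSS taskLow taskWellId taskWellLim taskLap taskJ taskSplit
    g_contDiff taskPer.1 r' (2 + 1) (by norm_num) hr' hr0' hM'
  have hlim : ∀ r : ℕ → ℝ, (∀ k, 0 < r k) → Tendsto r atTop (𝓝 0) →
      Tendsto (fun k => r k ^ 4) atTop (𝓝[>] 0) := by
    intro r hr hr0
    rw [tendsto_nhdsWithin_iff]
    refine ⟨?_, Eventually.of_forall fun k => ?_⟩
    · have := hr0.pow 4
      simpa using this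
    · have := hr k
      exact (by positivity : (0:ℝ) < r k ^ 4)
  refine ⟨fun k => r k ^ 4, fun k => r' k ^ 4, _, _, hlim r hr hr0, hlim r' hr' hr0', ?_, h1, h2⟩
  set c2 : ℝ := (2 * Real.pi) ^ 4 * (1/6 + 10 * 2) with hc2
  set c3 : ℝ := (2 * Real.pi) ^ 4 * (1/6 + 10 * (2 + 1)) with hc3
  have hc : c2 < c3 := by
    rw [hc2, hc3]
    exact mul_lt_mul_of_pos_left (by norm_num) (by positivity)
  obtain ⟨p3, hlt⟩ := taskJ c2 c3 (by positivity) hc
  have p2 : 0 < J c2 := p3.trans hlt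
  have e1 : -(((1/4) * J c2 - (1/4) * J c2) / (J c2 + J c2)) = 0 := by simp
  rw [e1]
  have e2 : 0 < -(((1/4) * J c3 - (1/4) * J c2) / (J c3 + J c2)) := by
    rw [← neg_div]
    apply div_pos <;> linarith
  exact e2.ne

end VV176
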