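import Mathlib
import Pool.Agent.Q176.VV.Stmts
import Pool.Agent.H102R3.SKM

open MeasureTheory ProbabilityTheory Filter Topology Set

namespace VV176

namespace Dyn184

theorem cont_of_deriv {f f1 : ℝ → ℝ} (h : ∀ x, HasDerivAt f (f1 x) x) : Continuous f :=
  continuous_iff_continuousAt.2 fun x => (h x).continuousAt

theorem int_bdd {u : ℝ × ℝ → ℝ} (C : ℝ) (hu : Continuous u) (hC : ∀ p, |u p| ≤ C) :
    Integrable u ((gaussianReal 0 1).prod (gaussianReal 0 1)) :=
  Integrable.of_bound hu.aestronglyMeasurable C (Eventually.of_forall fun p => hC p)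

theorem id_int : Integrable (fun t : ℝ => t) (gaussianReal 0 1) :=
  (memLp_id_gaussianReal 1).integrable (by norm_num)

theorem fst_int : Integrable (fun p : ℝ × ℝ => p.1) ((gaussianReal 0 1).prod (gaussianReal 0 1)) :=
  id_int.comp_fst _

theorem snd_int : Integrable (fun p : ℝ × ℝ => p.2) ((gaussianReal 0 1).prod (gaussianReal 0 1)) :=
  id_int.comp_snd _

/-- the double integral -/
theorem prodInt (u v : ℝ → ℝ) (C s t z : ℝ) (hu : Continuous u) (hv : Continuous v)
    (hC : ∀ x, |u x| ≤ C) (hC' : ∀ x, |v x| ≤ C) :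
    ∫ y, Gs u t (z + s * y) * v (z + s * y) ∂(gaussianReal 0 1) =
      ∫ p : ℝ × ℝ, u (z + s * p.1 + Real.sqrt t * p.2) * v (z + s * p.1)
        ∂((gaussianReal 0 1).prod (gaussianReal 0 1)) := by
  have hC0 : 0 ≤ C := (abs_nonneg _).trans (hC 0)
  rw [integral_prod]
  · refine integral_congr_ae (Eventually.of_forall fun y => ?_)
    simp only [Gs]
    rw [integral_mul_const]
  · refine int_bdd (C * C) (by fun_prop) fun p => ?_
    rw [abs_mul]
    exact mul_le_mul (hC _) (hC' _) (abs_nonneg _) hC0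

theorem gs_int (u v : ℝ → ℝ) (C s t z : ℝ) (hu : Continuous u) (hv : Continuous v)
    (hC : ∀ x, |u x| ≤ C) (hC' : ∀ x, |v x| ≤ C) :
    Integrable (fun y => Gs u t (z + s * y) * v (z + s * y)) (gaussianReal 0 1) := by
  have hC0 : 0 ≤ C := (abs_nonneg _).trans (hC 0)
  have i : Integrable (fun p : ℝ × ℝ => u (z + s * p.1 + Real.sqrt t * p.2) * v (z + s * p.1))
      ((gaussianReal 0 1).prod (gaussianReal 0 1)) := by
    refine int_bdd (C * C) (by fun_prop) fun p => ?_
    rw [abs_mul]
    exact mul_le_mul (hC _) (hC' _) (abs_nonneg _) hC0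
  refine i.integral_prod_left.congr (Eventually.of_forall fun y => ?_)
  simp only [Gs]
  rw [integral_mul_const]

end Dyn184

open Dyn184

theorem taskDyn : TaskDyn := by
  intro f f1 f2 h h1 h2 C e t T z Hf Hh he ht htT
  have hC0 : 0 ≤ C := (abs_nonneg _).trans (Hf.b0 0)
  have cf : Continuous f := cont_of_deriv Hf.d1
  have cf1 : Continuous f1 := cont_of_deriv Hf.d2
  have cf2 : Continuous f2 := Hf.c2
  have ch : Continuous h := cont_of_deriv Hh.d1
  have ch1 : Continuous h1 := cont_of_deriv Hh.d2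
  have ch2 : Continuous h2 := Hh.c2
  set γ := gaussianReal 0 1 with hγ
  -- rewrite the function
  have hfun : (fun t => ∫ y, Gs f (2 * e * t) (z + Real.sqrt (2 * e * (T - t)) * y)
      * h (z + Real.sqrt (2 * e * (T - t)) * y) ∂γ) =
      fun t => ∫ p : ℝ × ℝ, f (z + Real.sqrt (2 * e * (T - t)) * p.1 + Real.sqrt (2 * e * t) * p.2)
        * h (z + Real.sqrt (2 * e * (T - t)) * p.1) ∂(γ.prod γ) := by
    funext t
    exact prodInt f h C _ _ z cf ch Hf.b0 Hh.b0
  rw [hfun]
  set σ : ℝ → ℝ := fun x => Real.sqrt (2 * e * (T - x)) with hσ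
  set τ : ℝ → ℝ := fun x => Real.sqrt (2 * e * x) with hτ
  set F' : ℝ → ℝ × ℝ → ℝ := fun x p =>
    f1 (z + σ x * p.1 + τ x * p.2) * ((-e / σ x) * p.1 + (e / τ x) * p.2) * h (z + σ x * p.1) +
    f (z + σ x * p.1 + τ x * p.2) * (h1 (z + σ x * p.1) * ((-e / σ x) * p.1)) with hF'
  have hσpos : ∀ x ∈ Ioo (t/2) ((t+T)/2), Real.sqrt (e * (T - t)) ≤ σ x := by
    intro x hx
    apply Real.sqrt_le_sqrt
    have := hx.2
    nlinarith
  have hτpos : ∀ x ∈ Ioo (t/2) ((t+T)/2), Real.sqrt (e * t) ≤ τ x := by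
    intro x hx
    apply Real.sqrt_le_sqrt
    have := hx.1
    nlinarith
  have s0 : 0 < Real.sqrt (e * (T - t)) := Real.sqrt_pos.2 (mul_pos he (by linarith))
  have t0 : 0 < Real.sqrt (e * t) := Real.sqrt_pos.2 (mul_pos he ht)
  set S := e / Real.sqrt (e * (T - t)) with hS
  set R := e / Real.sqrt (e * t) with hR
  have key := hasDerivAt_integral_of_dominated_loc_of_deriv_le (μ := γ.prod γ)
    (F := fun (x : ℝ) (p : ℝ × ℝ) => f (z + σ x * p.1 + τ x * p.2) * h (z + σ x * p.1))
    (F' := F') (x₀ := t) (s := Ioo (t/2) ((t+T)/2))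
    (bound := fun p => C * (S * |p.1| + R * |p.2|) * C + C * (C * (S * |p.1|)))
    (Ioo_mem_nhds (by linarith) (by linarith))
    (Eventually.of_forall fun x => by
      apply Continuous.aestronglyMeasurable
      fun_prop)
    (int_bdd (C * C) (by fun_prop) fun p => by
      rw [abs_mul]
      exact mul_le_mul (Hf.b0 _) (Hh.b0 _) (abs_nonneg _) hC0)
    (by
      apply Continuous.aestronglyMeasurable
      simp only [hF']
      fun_prop)
    (Eventually.of_forall fun p x hx => by
      have a1 : |-e / σ x| ≤ S := by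
        rw [abs_div, abs_neg, abs_of_pos he, abs_of_nonneg (Real.sqrt_nonneg _)]
        exact div_le_div_of_nonneg_left he.le s0 (hσpos x hx)
      have a2 : |e / τ x| ≤ R := by
        rw [abs_div, abs_of_pos he, abs_of_nonneg (Real.sqrt_nonneg _)]
        exact div_le_div_of_nonneg_left he.le t0 (hτpos x hx)
      have a3 : |(-e / σ x) * p.1| ≤ S * |p.1| := by
        rw [abs_mul]; exact mul_le_mul_of_nonneg_right a1 (abs_nonneg _)
      have a4 : |(e / τ x) * p.2| ≤ R * |p.2| := by
        rw [abs_mul]; exact mul_le_mul_of_nonneg_right a2 (abs_nonneg _)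
      have hS0 : 0 ≤ S * |p.1| := (abs_nonneg _).trans a3
      have hR0 : 0 ≤ R * |p.2| := (abs_nonneg _).trans a4
      simp only [hF', Real.norm_eq_abs]
      refine (abs_add_le _ _).trans (add_le_add ?_ ?_)
      · rw [abs_mul, abs_mul]
        refine mul_le_mul (mul_le_mul (Hf.b1 _) ((abs_add_le _ _).trans (add_le_add a3 a4))
          (abs_nonneg _) hC0) (Hh.b0 _) (abs_nonneg _) (mul_nonneg hC0 (add_nonneg hS0 hR0))
      · rw [abs_mul, abs_mul (h1 _)]
        exact mul_le_mul (Hf.b0 _) (mul_le_mul (Hh.b1 _) a3 (abs_nonneg _) hC0)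
          (mul_nonneg (abs_nonneg _) (abs_nonneg _)) hC0)
    (by
      have i1 := (fst_int).abs
      have i2 := (snd_int).abs
      exact (((i1.const_mul S).add (i2.const_mul R)).const_mul C).mul_const C |>.add
        (((i1.const_mul S).const_mul C).const_mul C))
    (Eventually.of_forall fun p x hx => by
      have hx1 : 2 * e * (T - x) ≠ 0 := by
        have := hx.2
        have : 0 < T - x := by linarith
        positivity
      have hx2 : 2 * e * x ≠ 0 := by
        have := hx.1
        have : 0 < x := by linarith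
        positivity
      have d1 : HasDerivAt σ (-e / σ x) x := by
        have : HasDerivAt (fun y => 2 * e * (T - y)) (2 * e * (-1)) x :=
          ((hasDerivAt_id x).const_sub T).const_mul (2 * e)
        refine (this.sqrt hx1).congr_deriv ?_
        have : σ x ≠ 0 := by
          rw [hσ]; exact (Real.sqrt_pos.2 (lt_of_le_of_ne (by
            have := hx.2
            have : 0 < T - x := by linarith
            positivity) hx1.symm)).ne'
        change 2 * e * (-1) / (2 * σ x) = -e / σ x
        field_simp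
      have d2 : HasDerivAt τ (e / τ x) x := by
        have : HasDerivAt (fun y => 2 * e * y) (2 * e * 1) x :=
          (hasDerivAt_id x).const_mul (2 * e)
        refine (this.sqrt hx2).congr_deriv ?_
        have : τ x ≠ 0 := by
          rw [hτ]; exact (Real.sqrt_pos.2 (lt_of_le_of_ne (by
            have := hx.1
            have : 0 < x := by linarith
            positivity) hx2.symm)).ne'
        change 2 * e * 1 / (2 * τ x) = e / τ x
        field_simp
      have dB : HasDerivAt (fun x => z + σ x * p.1) ((-e / σ x) * p.1) x :=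
        (d1.mul_const p.1).const_add z
      have dA : HasDerivAt (fun x => z + σ x * p.1 + τ x * p.2)
          ((-e / σ x) * p.1 + (e / τ x) * p.2) x := dB.add (d2.mul_const p.2)
      have k1 := (Hf.d1 (z + σ x * p.1 + τ x * p.2)).comp x dA
      have k2 := (Hh.d1 (z + σ x * p.1)).comp x dB
      exact k1.mul k2)
  refine key.2.congr_deriv ?_
  -- evaluate the derivative
  have hst : σ t ≠ 0 := (s0.trans_le (hσpos t ⟨by linarith, by linarith⟩)).ne'
  have htt : τ t ≠ 0 := (t0.trans_le (hτpos t ⟨by linarith, by linarith⟩)).ne'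
  set A : ℝ × ℝ → ℝ := fun p => z + σ t * p.1 + τ t * p.2 with hA
  set B : ℝ × ℝ → ℝ := fun p => z + σ t * p.1 with hB
  have cA : Continuous A := by rw [hA]; fun_prop
  have cB : Continuous B := by rw [hB]; fun_prop
  have bd : ∀ (u v : ℝ → ℝ), Continuous u → Continuous v → (∀ x, |u x| ≤ C) → (∀ x, |v x| ≤ C) →
      Integrable (fun p => u (A p) * v (B p)) (γ.prod γ) := fun u v cu cv hu hv =>
    int_bdd (C * C) (by fun_prop) fun p => by
      rw [abs_mul]; exact mul_le_mul (hu _) (hv _) (abs_nonneg _) hC0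
  have bd1 : ∀ (u v : ℝ → ℝ), Continuous u → Continuous v → (∀ x, |u x| ≤ C) → (∀ x, |v x| ≤ C) →
      Integrable (fun p => p.1 * (u (A p) * v (B p))) (γ.prod γ) := fun u v cu cv hu hv =>
    fst_int.mul_bdd (c := C * C) (by apply Continuous.aestronglyMeasurable; fun_prop)
      (Eventually.of_forall fun p => by
        rw [Real.norm_eq_abs, abs_mul]; exact mul_le_mul (hu _) (hv _) (abs_nonneg _) hC0)
  have bd2 : ∀ (u v : ℝ → ℝ), Continuous u → Continuous v → (∀ x, |u x| ≤ C) → (∀ x, |v x| ≤ C) →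
      Integrable (fun p => p.2 * (u (A p) * v (B p))) (γ.prod γ) := fun u v cu cv hu hv =>
    snd_int.mul_bdd (c := C * C) (by apply Continuous.aestronglyMeasurable; fun_prop)
      (Eventually.of_forall fun p => by
        rw [Real.norm_eq_abs, abs_mul]; exact mul_le_mul (hu _) (hv _) (abs_nonneg _) hC0)
  -- Stein in the second variable
  have I2 : ∫ p, p.2 * (f1 (A p) * h (B p)) ∂(γ.prod γ) =
      τ t * ∫ p, f2 (A p) * h (B p) ∂(γ.prod γ) := by
    rw [integral_prod _ (bd2 f1 h cf1 ch Hf.b1 Hh.b0), integral_prod _ (bd f2 h cf2 ch Hf.b2 Hh.b0),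
      ← integral_const_mul]
    refine integral_congr_ae (Eventually.of_forall fun y => ?_)
    simp only [hA, hB]
    have st := Pool.H102.SK.stein1 (fun w => f1 (z + σ t * y + τ t * w) * h (z + σ t * y))
      (fun w => τ t * (f2 (z + σ t * y + τ t * w) * h (z + σ t * y)))
      (C * C + |τ t| * (C * C)) (fun w => by
        have dA : HasDerivAt (fun w => z + σ t * y + τ t * w) (τ t) w := by
          simpa using ((hasDerivAt_id w).const_mul (τ t)).const_add (z + σ t * y)
        have := ((Hf.d2 (z + σ t * y + τ t * w)).comp w dA).mul_const (h (z + σ t * y))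
        refine this.congr_deriv ?_
        ring) (fun w => by
        rw [abs_mul]
        have := mul_le_mul (Hf.b1 (z + σ t * y + τ t * w)) (Hh.b0 (z + σ t * y)) (abs_nonneg _) hC0
        have h0 : 0 ≤ |τ t| * (C * C) := by positivity
        linarith) (fun w => by
        rw [abs_mul, abs_mul]
        have := mul_le_mul (Hf.b2 (z + σ t * y + τ t * w)) (Hh.b0 (z + σ t * y)) (abs_nonneg _) hC0
        have h0 : 0 ≤ C * C := by positivity
        have := mul_le_mul_of_nonneg_left this (abs_nonneg (τ t))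
        linarith) (by apply Continuous.measurable; fun_prop)
    rw [st, integral_const_mul]
  -- Stein in the first variable
  have I1 : ∫ p, p.1 * (f1 (A p) * h (B p)) + p.1 * (f (A p) * h1 (B p)) ∂(γ.prod γ) =
      σ t * ∫ p, (f2 (A p) * h (B p) + 2 * (f1 (A p) * h1 (B p)) + f (A p) * h2 (B p))
        ∂(γ.prod γ) := by
    have ia := (bd1 f1 h cf1 ch Hf.b1 Hh.b0).add (bd1 f h1 cf ch1 Hf.b0 Hh.b1)
    have ib := (((bd f2 h cf2 ch Hf.b2 Hh.b0).add ((bd f1 h1 cf1 ch1 Hf.b1 Hh.b1).const_mul 2)).add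
      (bd f h2 cf ch2 Hf.b0 Hh.b2))
    have ea := integral_prod_symm _ ia
    have eb := integral_prod_symm _ ib
    simp only [Pi.add_apply] at ea eb
    rw [ea, eb, ← integral_const_mul]
    refine integral_congr_ae (Eventually.of_forall fun w => ?_)
    simp only [hA, hB]
    have st := Pool.H102.SK.stein1 (fun y => f1 (z + σ t * y + τ t * w) * h (z + σ t * y) +
        f (z + σ t * y + τ t * w) * h1 (z + σ t * y))
      (fun y => σ t * (f2 (z + σ t * y + τ t * w) * h (z + σ t * y) +
        2 * (f1 (z + σ t * y + τ t * w) * h1 (z + σ t * y)) +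
        f (z + σ t * y + τ t * w) * h2 (z + σ t * y)))
      (2 * (C * C) + |σ t| * (4 * (C * C))) (fun y => by
        have dB : HasDerivAt (fun y => z + σ t * y) (σ t) y := by
          simpa using ((hasDerivAt_id y).const_mul (σ t)).const_add z
        have dA : HasDerivAt (fun y => z + σ t * y + τ t * w) (σ t) y := dB.add_const _
        have k1 := ((Hf.d2 (z + σ t * y + τ t * w)).comp y dA).mul ((Hh.d1 (z + σ t * y)).comp y dB)
        have k2 := ((Hf.d1 (z + σ t * y + τ t * w)).comp y dA).mul ((Hh.d2 (z + σ t * y)).comp y dB)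
        refine (k1.add k2).congr_deriv ?_
        simp only [Function.comp]
        ring) (fun y => by
        have a1 := mul_le_mul (Hf.b1 (z + σ t * y + τ t * w)) (Hh.b0 (z + σ t * y)) (abs_nonneg _) hC0
        have a2 := mul_le_mul (Hf.b0 (z + σ t * y + τ t * w)) (Hh.b1 (z + σ t * y)) (abs_nonneg _) hC0
        have h0 : 0 ≤ |σ t| * (4 * (C * C)) := by positivity
        refine (abs_add_le _ _).trans ?_
        rw [abs_mul, abs_mul]
        linarith) (fun y => by
        have a1 := mul_le_mul (Hf.b2 (z + σ t * y + τ t * w)) (Hh.b0 (z + σ t * y)) (abs_nonneg _) hC0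
        have a2 := mul_le_mul (Hf.b1 (z + σ t * y + τ t * w)) (Hh.b1 (z + σ t * y)) (abs_nonneg _) hC0
        have a3 := mul_le_mul (Hf.b0 (z + σ t * y + τ t * w)) (Hh.b2 (z + σ t * y)) (abs_nonneg _) hC0
        have h0 : 0 ≤ C * C := by positivity
        rw [abs_mul]
        have : |f2 (z + σ t * y + τ t * w) * h (z + σ t * y) +
            2 * (f1 (z + σ t * y + τ t * w) * h1 (z + σ t * y)) +
            f (z + σ t * y + τ t * w) * h2 (z + σ t * y)| ≤ 4 * (C * C) := by
          refine (abs_add_le _ _).trans ?_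
          refine (add_le_add (abs_add_le _ _) le_rfl).trans ?_
          rw [abs_mul, abs_mul 2, abs_mul, abs_mul, abs_two]
          linarith
        have := mul_le_mul_of_nonneg_left this (abs_nonneg (σ t))
        linarith) (by apply Continuous.measurable; fun_prop)
    rw [← integral_const_mul, ← st]
    refine integral_congr_ae (Eventually.of_forall fun y => ?_)
    simp only
    ring
  have target : ∫ y, (-(2 * e) * Gs f1 (2 * e * t) (z + σ t * y) * h1 (z + σ t * y)
      - e * (Gs f (2 * e * t) (z + σ t * y) * h2 (z + σ t * y))) ∂γ =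
      -(2 * e) * ∫ p, f1 (A p) * h1 (B p) ∂(γ.prod γ) - e * ∫ p, f (A p) * h2 (B p) ∂(γ.prod γ) := by
    have q1 := prodInt f1 h1 C (σ t) (2 * e * t) z cf1 ch1 Hf.b1 Hh.b1
    have q2 := prodInt f h2 C (σ t) (2 * e * t) z cf ch2 Hf.b0 Hh.b2
    have p1 := gs_int f1 h1 C (σ t) (2 * e * t) z cf1 ch1 Hf.b1 Hh.b1
    have p2 := gs_int f h2 C (σ t) (2 * e * t) z cf ch2 Hf.b0 Hh.b2
    have q1' : ∫ p, f1 (A p) * h1 (B p) ∂(γ.prod γ) =
      ∫ y, Gs f1 (2 * e * t) (z + σ t * y) * h1 (z + σ t * y) ∂γ := q1.symm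
    have q2' : ∫ p, f (A p) * h2 (B p) ∂(γ.prod γ) =
      ∫ y, Gs f (2 * e * t) (z + σ t * y) * h2 (z + σ t * y) ∂γ := q2.symm
    rw [q1', q2', ← integral_const_mul, ← integral_const_mul,
      ← integral_sub (p1.const_mul _) (p2.const_mul _)]
    refine integral_congr_ae (Eventually.of_forall fun y => ?_)
    simp only
    ring
  have j1 := bd1 f1 h cf1 ch Hf.b1 Hh.b0
  have j2 := bd1 f h1 cf ch1 Hf.b0 Hh.b1
  have j3 := bd2 f1 h cf1 ch Hf.b1 Hh.b0
  have expand : ∫ p, F' t p ∂(γ.prod γ) =
      (-e / σ t) * ∫ p, p.1 * (f1 (A p) * h (B p)) + p.1 * (f (A p) * h1 (B p)) ∂(γ.prod γ) +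
      (e / τ t) * ∫ p, p.2 * (f1 (A p) * h (B p)) ∂(γ.prod γ) := by
    have z3 := integral_add ((j1.add j2).const_mul (-e / σ t)) (j3.const_mul (e / τ t))
    simp only [Pi.add_apply] at z3
    rw [← integral_const_mul, ← integral_const_mul, ← z3]
    refine integral_congr_ae (Eventually.of_forall fun p => ?_)
    simp only [hF', hA, hB]
    ring
  have k1 := bd f2 h cf2 ch Hf.b2 Hh.b0
  have k2 := bd f1 h1 cf1 ch1 Hf.b1 Hh.b1
  have k3 := bd f h2 cf ch2 Hf.b0 Hh.b2
  have e3 : ∫ p, (f2 (A p) * h (B p) + 2 * (f1 (A p) * h1 (B p)) + f (A p) * h2 (B p))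
        ∂(γ.prod γ) = ∫ p, f2 (A p) * h (B p) ∂(γ.prod γ) +
        2 * ∫ p, f1 (A p) * h1 (B p) ∂(γ.prod γ) + ∫ p, f (A p) * h2 (B p) ∂(γ.prod γ) := by
    have z1 := integral_add (k1.add (k2.const_mul 2)) k3
    have z2 := integral_add k1 (k2.const_mul 2)
    simp only [Pi.add_apply] at z1 z2
    rw [z1, z2, integral_const_mul]
  rw [target, expand, I1, I2, e3]
  field_simp
  ring

end VV176
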