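import Pool.Agent.Q176.VV.Stmts

/-! Splitting of a Lebesgue integral at 0 and shifting. -/

open MeasureTheory ProbabilityTheory Filter Topology Set

namespace VV176

theorem taskSplit : TaskSplit := by
  intro h hh
  have h1 : ∫ s in Ioi (-(1/4:ℝ)), h (1/4 + s) = ∫ y in Ioi (0 : ℝ), h y := by
    have := (measurePreserving_add_left (volume : Measure ℝ) (1/4)).setIntegral_preimage_emb
      (Homeomorph.addLeft (1/4 : ℝ)).measurableEmbedding h (Ioi 0)
    rw [← this]
    congr 2
    ext s
    simp only [mem_Ioi, mem_preimage]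
    constructor <;> intro _ <;> linarith
  have h2 : ∫ s in Ioi (-(1/4:ℝ)), h (-(1/4) - s) = ∫ y in Iio (0 : ℝ), h y := by
    have := (Measure.measurePreserving_sub_left (volume : Measure ℝ) (-(1/4))).setIntegral_preimage_emb
      (Homeomorph.subLeft (-(1/4) : ℝ)).measurableEmbedding h (Iio 0)
    rw [← this]
    congr 2
    ext s
    simp only [mem_Ioi, mem_preimage, mem_Iio]
    constructor <;> intro _ <;> linarith
  rw [h1, h2, ← integral_add_compl (measurableSet_Ioi (a := (0 : ℝ))) hh, compl_Ioi,
    integral_Iic_eq_integral_Iio]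

end VV176
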